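import Mathlib
import Pool.Agent.MP_1ba41f_an.S2.RK.Defs

/-! Invariant circles of all sizes down to zero: the interface. -/

noncomputable section
open Set

namespace Pool.Agent.MP_1ba41f_an.S2

abbrev C2 : Type := ℂ × ℂ

/-- the reflection -/
def Gm (x : C2) : C2 := (x.1, -x.2)

def det2 (u v : C2) : ℂ := u.1 * v.2 - u.2 * v.1

def strip (s : ℝ) : Set ℂ := {θ | |θ.im| < s}

/-- real points of the plane -/
def r2c (x : ℝ × ℝ) : C2 := (x.1, x.2)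

def RealC2 (x : C2) : Prop := x.1.im = 0 ∧ x.2.im = 0

/-- periodic symmetric curves, holomorphic on a strip -/
structure Crv {P : Type} [TopologicalSpace P] (s0 : ℝ) (V : P → ℂ → C2) : Prop where
  cont : ContinuousOn (fun q : P × ℂ => V q.1 q.2) (univ ×ˢ strip s0)
  diff : ∀ p, DifferentiableOn ℂ (V p) (strip s0)
  per : ∀ p, ∀ θ ∈ strip s0, V p (θ + 2 * Real.pi) = V p θ
  real : ∀ p (θ : ℝ), RealC2 (V p θ)
  par : ∀ p (θ : ℝ), V p (-θ) = Gm (V p θ)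

/-- the unperturbed circle of size `H p` -/
def cur {P : Type} (H mc : P → ℝ) (V : P → ℂ → C2) (p : P) (θ : ℂ) : C2 :=
  ((mc p : ℂ), 0) + (H p : ℂ) • V p θ

/-- a complex neighbourhood of the real circle -/
def nbh {P : Type} (d0 : ℝ) (H mc : P → ℝ) (V : P → ℂ → C2) (p : P) : Set C2 :=
  {x | ∃ θ : ℝ, ‖x - cur H mc V p θ‖ < d0}

/-- The unperturbed data: circles, a transversal field, the half map `Pm`, the rotation `om`. -/
structure LBData {P : Type} [MetricSpace P] (s0 d0 : ℝ) (H mc om : P → ℝ) (V N : P → ℂ → C2)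
    (Pm : P → C2 → C2) : Prop where
  s0pos : 0 < s0
  d0pos : 0 < d0
  hc : Continuous H
  h0 : ∀ p, 0 ≤ H p
  dense : Dense {p | 0 < H p}
  mcc : Continuous mc
  omc : Continuous om
  cv : Crv s0 V
  cn : Crv s0 N
  pc : ContinuousOn (fun q : P × C2 => Pm q.1 q.2) {q | q.2 ∈ nbh d0 H mc V q.1}
  pd : ∀ p, DifferentiableOn ℂ (Pm p) (nbh d0 H mc V p)
  pr : ∀ p, ∀ x ∈ nbh d0 H mc V p, RealC2 x → RealC2 (Pm p x)
  inv : ∀ p (θ : ℝ), Pm p (cur H mc V p (-θ - om p : ℝ)) = Gm (Pm p (cur H mc V p θ))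
  trv : ∀ p (θ : ℝ), det2 (fderiv ℂ (Pm p) (cur H mc V p θ) (N p θ))
    (fderiv ℂ (Pm p) (cur H mc V p θ) (deriv (V p) θ)) ≠ 0
  sym : ∀ p (θ : ℝ), 0 < H p →
    det2 (fderiv ℂ (Pm p) (cur H mc V p θ) (N p θ) -
        Gm (fderiv ℂ (Pm p) (cur H mc V p (-θ - om p : ℝ)) (N p (-θ - om p : ℝ))))
      (fderiv ℂ (Pm p) (cur H mc V p θ) (deriv (V p) θ)) = 0
  ctr : ∀ p, H p = 0 → ∃ θ : ℝ, (deriv (V p) θ).2 = 0 ∧
    deriv (V p) (-θ - om p : ℝ) ≠ -deriv (V p) θ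

abbrev Ws (n : ℕ) : Type := C2 × Hh n × Hh n × Hh n

/-- the domain of the perturbation -/
def DomW {n : ℕ} (O : Set C2) : Set (Ws n) :=
  {z | z.1 ∈ O ∧ ‖z.2.1‖ < 1 ∧ ‖z.2.2.1‖ < 1 ∧ ‖z.2.2.2‖ < 1}

/-- real points -/
def rw3 {n : ℕ} (x : ℝ × ℝ) (h0 h1 h2 : Fin n → ℝ) : Ws n :=
  (r2c x, fun j => h0 j, fun j => h1 j, fun j => h2 j)

/-- small holomorphic perturbations, real on real points -/
structure HolW {P : Type} [TopologicalSpace P] {n : ℕ} (O : P → Set C2) (μ : ℝ)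
    (F : P → Ws n → ℂ) : Prop where
  cont : ContinuousOn (fun q : P × Ws n => F q.1 q.2) {q | q.2 ∈ DomW (O q.1)}
  diff : ∀ p, DifferentiableOn ℂ (F p) (DomW (O p))
  bd : ∀ p, ∀ z ∈ DomW (O p), ‖F p z‖ ≤ μ
  real : ∀ p x h0 h1 h2, rw3 x h0 h1 h2 ∈ DomW (O p) → (F p (rw3 x h0 h1 h2)).im = 0

/-- real periodic analytic functions with a parameter -/
structure Pa {P : Type} [TopologicalSpace P] (u : P → ℝ → ℝ) : Prop where
  cont : Continuous fun q : P × ℝ => u q.1 q.2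
  per : ∀ p θ, u p (θ + 2 * Real.pi) = u p θ
  ana : ∀ p, AnalyticOnNhd ℝ (u p) univ

/-- the point seen from the angle `θ` -/
def ptW {n : ℕ} (w : ℝ) (m1 m2 : ℝ → ℝ) (h : ℝ → Fin n → ℝ) (θ : ℝ) : Ws n :=
  rw3 (m1 θ, m2 θ) (h θ) (h (-θ)) (h (-θ - w))

/-- LB: invariant circles of all sizes for the perturbed half map `Pm + (f1, f2)` with slaves. -/
def LBStmt : Prop :=
  ∀ (P : Type) [MetricSpace P] [CompactSpace P] (s0 d0 : ℝ) (H mc om : P → ℝ)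
    (V N : P → ℂ → C2) (Pm : P → C2 → C2), LBData s0 d0 H mc om V N Pm →
    ∀ (n : ℕ) (w g η : ℝ), DioW w g → 0 < η → ∃ μ : ℝ, 0 < μ ∧
      ∀ (f1 f2 : P → Ws n → ℂ) (G : P → Ws n → Hh n),
        HolW (nbh d0 H mc V) μ f1 → HolW (nbh d0 H mc V) μ f2 →
        (∀ j, HolW (nbh d0 H mc V) μ fun p z => G p z j) →
        ∃ (m1 m2 : P → ℝ → ℝ) (h : P → ℝ → Fin n → ℝ) (sig : P → ℝ),
          Pa m1 ∧ Pa m2 ∧ (∀ j, Pa fun p θ => h p θ j) ∧ Continuous sig ∧ (∀ p, |sig p| ≤ η) ∧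
          (∀ p θ, m1 p (-θ) = m1 p θ ∧ m2 p (-θ) = -m2 p θ) ∧
          (∀ p (θ : ℝ), ‖r2c (m1 p θ, m2 p θ) - cur H mc V p θ‖ ≤ η ∧ ‖h p θ‖ ≤ η ∧
            ptW w (m1 p) (m2 p) (h p) θ ∈ DomW (nbh d0 H mc V p) ∧
            ∀ j, (h p θ j : ℂ) = G p (ptW w (m1 p) (m2 p) (h p) θ) j) ∧
          (∀ p, om p = w + 2 * sig p → ∀ θ : ℝ,
            Pm p (r2c (m1 p (-θ - w), m2 p (-θ - w))) +
                (f1 p (ptW w (m1 p) (m2 p) (h p) (-θ - w)), f2 p (ptW w (m1 p) (m2 p) (h p) (-θ - w))) =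
              Gm (Pm p (r2c (m1 p θ, m2 p θ)) +
                (f1 p (ptW w (m1 p) (m2 p) (h p) θ), f2 p (ptW w (m1 p) (m2 p) (h p) θ)))) ∧
          ∀ p, H p = 0 → ∀ θ, m1 p θ = m1 p 0 ∧ m2 p θ = m2 p 0 ∧ h p θ = h p 0

end Pool.Agent.MP_1ba41f_an.S2
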