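import Pool.Agent.MP_1ba41f_an.S2.LB.Spec
import Pool.Agent.MP_1ba41f_an.S2.OD.Cau

/-! Derivatives of holomorphic maps depend continuously on parameters. -/

set_option autoImplicit false

noncomputable section
open Set Metric Filter Topology

namespace Pool.Agent.MP_1ba41f_an.S2.LB

namespace Dc

/-- Difference quotients approximate the derivative uniformly. -/
theorem quot {E F : Type} [NormedAddCommGroup E] [NormedSpace ℂ E] [NormedAddCommGroup F]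
    [NormedSpace ℂ F] {f : E → F} {x v : E} {r M B t : ℝ} (hr : 0 < r)
    (hd : DifferentiableOn ℂ f (ball x r)) (hM : ∀ z ∈ ball x r, ‖f z‖ ≤ M) (ht : 0 < t)
    (hv : ‖v‖ < B) (htB : t * B ≤ r) :
    ‖fderiv ℂ f x v - (t : ℂ)⁻¹ • (f (x + (t : ℂ) • v) - f x)‖ ≤ 4 * M / r ^ 2 * t * B ^ 2 := by
  have hn : ‖(t : ℂ) • v‖ = t * ‖v‖ := by
    rw [norm_smul, Complex.norm_real, Real.norm_of_nonneg ht.le]
  have hz : x + (t : ℂ) • v ∈ ball x r := by
    rw [mem_ball, dist_eq_norm, add_sub_cancel_left, hn]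
    exact (mul_lt_mul_of_pos_left hv ht).trans_le htB
  have h1 := (cauS E F f x r M hr hd hM).2.2.1 _ hz
  rw [add_sub_cancel_left, hn, map_smul] at h1
  have ht0 : (t : ℂ) ≠ 0 := Complex.ofReal_ne_zero.2 ht.ne'
  have h2 : fderiv ℂ f x v - (t : ℂ)⁻¹ • (f (x + (t : ℂ) • v) - f x) =
      -((t : ℂ)⁻¹ • (f (x + (t : ℂ) • v) - f x - (t : ℂ) • fderiv ℂ f x v)) := by
    rw [smul_sub (t : ℂ)⁻¹ (f (x + (t : ℂ) • v) - f x), smul_smul, inv_mul_cancel₀ ht0, one_smul,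
      neg_sub]
  have hM0 : 0 ≤ M := (norm_nonneg _).trans (hM x (mem_ball_self hr))
  rw [h2, norm_neg, norm_smul, norm_inv, Complex.norm_real, Real.norm_of_nonneg ht.le]
  have h3 : ‖v‖ ^ 2 ≤ B ^ 2 := pow_le_pow_left₀ (norm_nonneg v) hv.le 2
  calc t⁻¹ * ‖f (x + (t : ℂ) • v) - f x - (t : ℂ) • fderiv ℂ f x v‖
      ≤ t⁻¹ * (4 * M / r ^ 2 * (t * ‖v‖) ^ 2) := by gcongr
    _ = 4 * M / r ^ 2 * t * ‖v‖ ^ 2 := by field_simp
    _ ≤ 4 * M / r ^ 2 * t * B ^ 2 := by gcongr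

end Dc

theorem dc : DcStmt := by
  intro P E F _ _ _ _ _ S Φ hS hc hd
  rintro ⟨⟨p0, x0⟩, v0⟩ ⟨hq, -⟩
  have hq : (p0, x0) ∈ S := hq
  set M : ℝ := ‖Φ p0 x0‖ + 1 with hMdef
  have hM0 : 0 < M := by positivity
  have h1 : {q : P × E | ‖Φ q.1 q.2‖ < M} ∈ 𝓝 (p0, x0) :=
    (hc.continuousAt (hS.mem_nhds hq)).norm.eventually_lt continuousAt_const (by simp [hMdef])
  obtain ⟨W, hW, V, hV, hWV⟩ := mem_nhds_prod_iff.1 (inter_mem (hS.mem_nhds hq) h1)
  obtain ⟨r2, hr2, hball⟩ := Metric.mem_nhds_iff.1 hV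
  set r : ℝ := r2 / 2 with hrdef
  have hr : 0 < r := half_pos hr2
  set B : ℝ := ‖v0‖ + 1 with hBdef
  have hB : 0 < B := by positivity
  have hin : ∀ p ∈ W, ∀ x ∈ ball x0 r, ∀ z ∈ ball x r, (p, z) ∈ S ∧ ‖Φ p z‖ ≤ M := by
    intro p hp x hx z hz
    have hz2 : z ∈ ball x0 r2 := by
      rw [mem_ball] at hx hz ⊢
      linarith [dist_triangle z x x0]
    have := hWV (mk_mem_prod hp (hball hz2))
    exact ⟨this.1, le_of_lt this.2⟩
  have hA : (W ×ˢ ball x0 r) ×ˢ ball v0 1 ∈ 𝓝 ((p0, x0), v0) :=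
    prod_mem_nhds (prod_mem_nhds hW (ball_mem_nhds _ hr)) (ball_mem_nhds _ one_pos)
  have hvB : ∀ v ∈ ball v0 1, ‖v‖ < B := fun v hv => by
    rw [mem_ball, dist_eq_norm] at hv
    linarith [norm_le_norm_add_norm_sub' v v0]
  refine (ContinuousOn.continuousAt ?_ hA).continuousWithinAt
  refine continuousOn_of_uniform_approx_of_continuousOn fun u hu => ?_
  obtain ⟨ε, hε, hu⟩ := Metric.mem_uniformity_dist.1 hu
  set t : ℝ := min (r / B) (ε * r ^ 2 / (8 * M * B ^ 2)) with htdef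
  have ht : 0 < t := lt_min (by positivity) (by positivity)
  have htB : t * B ≤ r := (le_div_iff₀ hB).1 (min_le_left _ _)
  have htε : 4 * M / r ^ 2 * t * B ^ 2 < ε := by
    have h2 : t ≤ ε * r ^ 2 / (8 * M * B ^ 2) := min_le_right _ _
    calc 4 * M / r ^ 2 * t * B ^ 2 ≤ 4 * M / r ^ 2 * (ε * r ^ 2 / (8 * M * B ^ 2)) * B ^ 2 := by
          gcongr
      _ = ε / 2 := by field_simp; ring
      _ < ε := half_lt_self hε
  refine ⟨fun q => (t : ℂ)⁻¹ • (Φ q.1.1 (q.1.2 + (t : ℂ) • q.2) - Φ q.1.1 q.1.2), ?_, ?_⟩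
  · refine (ContinuousOn.sub ?_ ?_).const_smul _
    · refine hc.comp (f := fun q : (P × E) × E => (q.1.1, q.1.2 + (t : ℂ) • q.2))
        (Continuous.continuousOn (by fun_prop)) fun q hq => (hin _ hq.1.1 _ hq.1.2 _ ?_).1
      rw [mem_ball, dist_eq_norm, add_sub_cancel_left, norm_smul, Complex.norm_real,
        Real.norm_of_nonneg ht.le]
      exact (mul_lt_mul_of_pos_left (hvB _ hq.2) ht).trans_le htB
    · exact hc.comp continuousOn_fst fun q hq => (hin _ hq.1.1 _ hq.1.2 _ (mem_ball_self hr)).1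
  · intro q hq
    apply hu
    rw [dist_eq_norm]
    exact (Dc.quot hr ((hd q.1.1).mono fun z hz => (hin _ hq.1.1 _ hq.1.2 z hz).1)
      (fun z hz => (hin _ hq.1.1 _ hq.1.2 z hz).2) ht (hvB _ hq.2) htB).trans_lt htε

end Pool.Agent.MP_1ba41f_an.S2.LB
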