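import Pool.Agent.MP_1ba41f_an.S2.LB.Bas

/-! Invariant circles of all sizes down to zero: back to the true variables. -/

set_option autoImplicit false

open Set

namespace Pool.Agent.MP_1ba41f_an.S2.LB

namespace Fin'

theorem pa {P : Type} [TopologicalSpace P] {u : P → ℝ → ℝ} {a b : P → ℝ} (h : Pa u)
    (ha : Continuous a) (hb : Continuous b) : Pa fun p θ => a p + b p * u p θ :=
  ⟨(ha.comp continuous_fst).add ((hb.comp continuous_fst).mul h.cont),
    fun p θ => by rw [h.per], fun p => analyticOnNhd_const.add (analyticOnNhd_const.mul (h.ana p))⟩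

end Fin'

theorem lbS (red : RedStmt) (lb1 : Lb1Stmt) : LBStmt := by
  intro P _ _ s0 d0 H mc om V N Pm ld n w g η hw hη
  obtain ⟨d1, Pn, nd, hr⟩ := red P s0 d0 H mc om V N Pm ld
  obtain ⟨C, μ0, c0, C0, hμ0, hc0, cH, hr⟩ := hr n
  obtain ⟨μ1, hμ1, hl⟩ := lb1 P s0 d1 om V N Pn nd n w g (min η (c0 * η)) hw (by positivity)
  set e := min η (c0 * η)
  have e1 : e ≤ η := min_le_left _ _
  have e2 : e ≤ c0 * η := min_le_right _ _
  set μ := min μ0 (min (μ1 / C) (η / 2 / C)) with hμ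
  have μp : 0 < μ := by positivity
  have m1 : C * μ ≤ μ1 := (le_div_iff₀' C0).1 ((min_le_right _ _).trans (min_le_left _ _))
  have m2 : C * μ ≤ η / 2 := (le_div_iff₀' C0).1 ((min_le_right _ _).trans (min_le_right _ _))
  refine ⟨μ, μp, fun f1 f2 G h1 h2 h3 => ?_⟩
  obtain ⟨D1, Dx, Dh, g1, g2, Gn, cD, cDh, bD, k1, k2, k3, rel⟩ :=
    hr μ μp (min_le_left _ _) f1 f2 G h1 h2 h3
  obtain ⟨a, b, h, sig, pa, pb, ph, cs, bs, par, loc, mat⟩ :=
    hl g1 g2 Gn (k1.mono m1) (k2.mono m1) fun j => (k3 j).mono m1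
  have key : ∀ p θ, ptW w (fun θ => mc p + D1 p + H p * a p θ) (fun θ => 0 + H p * b p θ)
      (fun θ j => Dh p j + c0 * H p * h p θ j) θ =
      lift H mc D1 Dh c0 p (ptW w (a p) (b p) (h p) θ) := fun p θ => by
    simp [ptW, rw3, lift, r2c]
  have key1 : ∀ p θ, r2c (mc p + D1 p + H p * a p θ, 0 + H p * b p θ) =
      (lift H mc D1 Dh c0 p (ptW w (a p) (b p) (h p) θ)).1 := fun p θ => congrArg Prod.fst (key p θ)
  refine ⟨fun p θ => mc p + D1 p + H p * a p θ, fun p θ => 0 + H p * b p θ,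
    fun p θ j => Dh p j + c0 * H p * h p θ j, sig, Fin'.pa pa (ld.mcc.add cD) ld.hc,
    Fin'.pa pb continuous_const ld.hc,
    fun j => Fin'.pa (ph j) ((continuous_apply j).comp cDh) (continuous_const.mul ld.hc), cs,
    fun p => (bs p).trans e1, fun p θ => ⟨by simp [(par p θ).1], by simp [(par p θ).2]⟩,
    fun p θ => ?_, fun p hp θ => ?_, fun p hp θ => by simp [hp]⟩
  · obtain ⟨l1, l2, l3, l4⟩ := loc p θ
    have H0 := ld.h0 p
    have cH := cH p
    rw [key]
    refine ⟨?_, ?_, (rel p _ l3).1, fun j => ?_⟩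
    · have : r2c (mc p + D1 p + H p * a p θ, 0 + H p * b p θ) - cur H mc V p θ =
          ((D1 p : ℂ), 0) + (H p : ℂ) • (r2c (a p θ, b p θ) - V p θ) := by
        ext <;> simp [r2c, cur] <;> ring
      rw [this]
      refine (norm_add_le _ _).trans ?_
      rw [norm_smul, Complex.norm_real, Real.norm_of_nonneg H0]
      have : ‖((D1 p : ℂ), (0 : ℂ))‖ = |D1 p| := by simp [Prod.norm_def]
      have := mul_le_mul_of_nonneg_left (l1.trans e2) H0
      nlinarith [(bD p).1]
    · show ‖Dh p + (c0 * H p) • h p θ‖ ≤ η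
      refine (norm_add_le _ _).trans ?_
      rw [norm_smul, Real.norm_of_nonneg (by positivity)]
      have := mul_le_mul cH (l2.trans e1) (norm_nonneg _) (by norm_num)
      linarith [(bD p).2]
    · rw [(rel p _ l3).2.2 j, ← l4 j]
      push_cast
      rfl
  · have r1 := (rel p _ (loc p θ).2.2.1).2.1
    have r2 := (rel p _ (loc p (-θ - w)).2.2.1).2.1
    have r3 : Pn p (ptW w (a p) (b p) (h p) (-θ - w)).1 + _ =
      Gm (Pn p (ptW w (a p) (b p) (h p) θ).1 + _) := mat p hp θ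
    rw [key, key, key1, key1, r1, r2, r3]
    simp [Gm, mul_add]

end Pool.Agent.MP_1ba41f_an.S2.LB
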