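import Pool.Agent.MP_1ba41f_an.S2.LB.Bas

/-! The symmetric fixed point of the perturbed system. -/

set_option autoImplicit false

open Set Metric Filter Topology

namespace Pool.Agent.MP_1ba41f_an.S2.LB

namespace Fixp

/-- fixed points of a continuous family of contractions of a closed set -/
theorem fixc {P X : Type} [TopologicalSpace P] [NormedAddCommGroup X] [CompleteSpace X]
    {S : Set X} (hS : IsClosed S) (h0 : (0 : X) ∈ S) (g : P → X → X) (hm : ∀ p, MapsTo (g p) S S)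
    (hl : ∀ p, ∀ x ∈ S, ∀ y ∈ S, ‖g p x - g p y‖ ≤ 1 / 2 * ‖x - y‖)
    (hc : ∀ x ∈ S, Continuous fun p => g p x) :
    ∃ ξ : P → X, Continuous ξ ∧ ∀ p, ξ p ∈ S ∧ g p (ξ p) = ξ p ∧ ‖ξ p‖ ≤ 2 * ‖g p 0‖ := by
  have ex : ∀ p, ∃ y ∈ S, g p y = y := fun p => by
    have ct : ContractingWith (1 / 2) ((hm p).restrict _ _ _) := by
      refine ⟨by norm_num, LipschitzWith.of_dist_le_mul fun x y => ?_⟩
      have := hl p x x.2 y y.2
      rw [← dist_eq_norm, ← dist_eq_norm] at this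
      simpa [Subtype.dist_eq] using this
    obtain ⟨y, y1, y2, -⟩ := ct.exists_fixedPoint' hS.isComplete (hm p) h0 (edist_ne_top _ _)
    exact ⟨y, y1, y2⟩
  choose ξ m e using ex
  have key : ∀ p, ∀ y ∈ S, ‖ξ p - y‖ ≤ 2 * ‖g p y - y‖ := fun p y hy => by
    have h1 := hl p _ (m p) y hy
    have h2 := norm_sub_le_norm_sub_add_norm_sub (ξ p) (g p y) y
    rw [e] at h1
    linarith
  refine ⟨ξ, continuous_iff_continuousAt.2 fun q => ?_, fun p => ⟨m p, e p, ?_⟩⟩
  · refine tendsto_iff_norm_sub_tendsto_zero.2 (squeeze_zero (fun _ => norm_nonneg _)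
      (fun p => key p _ (m q)) ?_)
    have h1 : Continuous fun p => 2 * ‖g p (ξ q) - ξ q‖ :=
      continuous_const.mul ((hc _ (m q)).sub continuous_const).norm
    have h2 := h1.tendsto q
    rwa [e, sub_self, norm_zero, mul_zero] at h2
  · simpa using key p 0 h0

/-- a bounded continuous inverse where `J` is not small -/
theorem kap {P : Type} [TopologicalSpace P] {J : P → ℝ} (hJ : Continuous J) {m : ℝ} (hm : 0 < m) :
    ∃ κ : P → ℝ, Continuous κ ∧ ∀ p, |κ p| ≤ 1 / m ∧ (m ≤ |J p| → κ p * J p = 1) := by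
  have pos : ∀ p, 0 < max (J p ^ 2) (m ^ 2) := fun p => lt_max_of_lt_right (by positivity)
  refine ⟨fun p => J p / max (J p ^ 2) (m ^ 2), hJ.div (by fun_prop) fun p => (pos p).ne',
    fun p => ⟨?_, fun h => ?_⟩⟩
  · rw [abs_div, abs_of_pos (pos p), div_le_div_iff₀ (pos p) hm, one_mul]
    rcases le_total |J p| m with h | h
    · exact le_max_of_le_right (by nlinarith)
    · exact le_max_of_le_left (by rw [← sq_abs]; nlinarith [abs_nonneg (J p)])
  · have h1 : m ^ 2 ≤ J p ^ 2 := by rw [← sq_abs (J p)]; gcongr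
    have h2 : J p ≠ 0 := abs_pos.1 (hm.trans_le h)
    show J p / max (J p ^ 2) (m ^ 2) * J p = 1
    rw [max_eq_left h1]
    field_simp

/-- points on the line of symmetry -/
def emb {n : ℕ} (a : C2) (x : ℂ × Hh n) : Ws n := (a + (x.1, 0), x.2, x.2, x.2)

theorem emb_real {n : ℕ} {a : C2} (ha : RealC2 a) {x : ℂ × Hh n} (h1 : x.1.im = 0)
    (h2 : ∀ j, (x.2 j).im = 0) : emb a x = rw3 ((a.1 + x.1).re, a.2.re) (fun j => (x.2 j).re)
      (fun j => (x.2 j).re) fun j => (x.2 j).re := by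
  have e : (fun j => (((x.2 j).re : ℝ) : ℂ)) = x.2 :=
    funext fun j => Complex.ext rfl (by simp [h2 j])
  simp only [emb, rw3, r2c, e]
  refine Prod.ext (Prod.ext ?_ ?_) rfl
  · exact Complex.ext rfl (by simp [ha.1, h1])
  · exact Complex.ext (by simp) (by simp [ha.2])

theorem clo (n : ℕ) (r : ℝ) :
    IsClosed {x : ℂ × Hh n | ‖x‖ ≤ r ∧ x.1.im = 0 ∧ ∀ j, (x.2 j).im = 0} := by
  rw [ofPred_and, ofPred_and, ofPred_forall]
  exact (isClosed_le (by fun_prop) continuous_const).inter ((isClosed_eq (by fun_prop)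
    continuous_const).inter (isClosed_iInter fun j => isClosed_eq (by fun_prop) continuous_const))

end Fixp

open Fixp in
theorem fixp (dc : DcStmt) : FixpStmt := by
  intro P _ _ s0 d0 H mc om V N Pm h hJ n
  have d0p := h.d0pos
  obtain ⟨a, ha⟩ : ∃ a : P → C2, ∀ p, a p = cur H mc V p 0 := ⟨_, fun _ => rfl⟩
  have ha' : ∀ p, a p = cur H mc V p (0 : ℝ) := fun p => by rw [ha, Complex.ofReal_zero]
  have ac : Continuous a := by
    rw [funext ha']
    exact (cur_cont h.hc h.mcc h.cv h.s0pos).comp (f := fun p : P => (p, (0 : ℝ))) (by fun_prop)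
  have ar : ∀ p, RealC2 (a p) := fun p => by
    have := h.cv.real p 0
    rw [ha']
    exact ⟨by simp [cur, -Complex.ofReal_zero, this.1], by simp [cur, -Complex.ofReal_zero, this.2]⟩
  have sub : ∀ p, ball (a p) d0 ⊆ nbh d0 H mc V p := fun p z hz =>
    ⟨0, by rw [← ha']; exact mem_ball_iff_norm.1 hz⟩
  have am : ∀ p (D : ℂ), ‖D‖ < d0 → a p + (D, 0) ∈ nbh d0 H mc V p := fun p D hD =>
    sub p (by simpa [mem_ball_iff_norm, Prod.norm_def, d0p] using hD)
  have a0 : ∀ p, a p ∈ nbh d0 H mc V p := fun p => sub p (mem_ball_self d0p)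
  have Ji : ∀ p, (fderiv ℂ (Pm p) (a p) (1, 0)).2.im = 0 := fun p => by
    have d1 : HasFDerivAt (Pm p) (fderiv ℂ (Pm p) (a p)) (a p) :=
      ((h.pd p).differentiableAt ((nbh_fibre_open _ _ _ _ p).mem_nhds (a0 p))).hasFDerivAt
    have d2 : HasDerivAt (fun t : ℂ => a p + (t, 0)) ((1, 0) : C2) (0 : ℝ) :=
      ((hasDerivAt_id _).prodMk (hasDerivAt_const _ (0 : ℂ))).const_add _
    have d3 := (d1.comp_hasDerivAt_of_eq _ d2 (by simp [Prod.mk_zero_zero]))
    refine im_deriv (x := 0) (g := fun t : ℂ => (Pm p (a p + (t, 0))).2)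
      ((ContinuousLinearMap.snd ℂ ℂ ℂ).hasFDerivAt.comp_hasDerivAt _ d3) ?_
    filter_upwards [ball_mem_nhds (0 : ℝ) d0p] with t ht
    exact (h.pr p _ (am p t (by simpa using ht)) ⟨by simp [(ar p).1], by simp [(ar p).2]⟩).2
  obtain ⟨J, Jc, Je⟩ : ∃ J : P → ℝ, Continuous J ∧
      ∀ p, (fderiv ℂ (Pm p) (a p) (1, 0)).2 = J p := by
    refine ⟨fun p => (fderiv ℂ (Pm p) (a p) (1, 0)).2.re, Complex.continuous_re.comp
      (continuous_snd.comp ?_), fun p => Complex.ext rfl (by simp [Ji p])⟩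
    exact (dc P C2 C2 _ Pm (nbh_open h.hc h.mcc h.cv h.s0pos d0) h.pc h.pd).comp_continuous
      (f := fun p : P => ((p, a p), ((1, 0) : C2))) (by fun_prop) fun p => ⟨a0 p, trivial⟩
  obtain ⟨m, m0, hm⟩ := isCompact_univ.exists_forall_le' (f := fun p => max (H p) |J p|) (a := 0)
    (h.hc.max Jc.abs).continuousOn fun p _ => by
      rcases (h.h0 p).eq_or_lt with e | e
      · have := hJ p e.symm
        rw [← ha, Je] at this
        exact lt_max_of_lt_right (abs_pos.2 fun z => this (by rw [z, Complex.ofReal_zero]))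
      · exact lt_max_of_lt_left e
  obtain ⟨κ, κc, hκ⟩ := kap Jc m0
  obtain ⟨M, M0, hM⟩ := tube_bd (γ := fun p θ => cur H mc V p θ)
    (cur_cont h.hc h.mcc h.cv h.s0pos) (cur_per H mc h.cv h.s0pos) (half_lt_self d0p) h.pc
  obtain ⟨A, A0, hA⟩ : ∃ A : ℝ, 0 < A ∧ ∀ p (D : ℂ), ‖D‖ < d0 / 2 →
      ‖(Pm p (a p + (D, 0)) - Pm p (a p)).2 - D * J p‖ ≤ A * ‖D‖ ^ 2 := by
    refine ⟨4 * M / (d0 / 2) ^ 2, by positivity, fun p D hD => ?_⟩
    have e1 : ‖((D, 0) : C2)‖ = ‖D‖ := by simp [Prod.norm_def]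
    have := (cauS C2 C2 (Pm p) (a p) (d0 / 2) M (half_pos d0p)
      ((h.pd p).mono ((ball_subset_ball (half_le_self d0p.le)).trans (sub p)))
      fun z hz => hM p 0 z (by rw [← ha']; exact (mem_ball_iff_norm.1 hz).le)).2.2.1
      (a p + (D, 0)) (by rwa [mem_ball_iff_norm, add_sub_cancel_left, e1])
    rw [add_sub_cancel_left, e1, show ((D, 0) : C2) = D • ((1, 0) : C2) by simp, map_smul] at this
    refine le_trans (le_of_eq ?_) ((norm_snd_le _).trans this)
    rw [← Je]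
    simp
  obtain ⟨R, R0, R1, R2, R3⟩ : ∃ R : ℝ, 0 < R ∧ R ≤ d0 / 2 ∧ R ≤ 1 ∧ R ≤ m / (16 * A) :=
    ⟨min (d0 / 2) (min 1 (m / (16 * A))), by positivity, min_le_left _ _,
      (min_le_right _ _).trans (min_le_left _ _), (min_le_right _ _).trans (min_le_right _ _)⟩
  refine ⟨2 * (1 / m + 1), R / (16 * (1 / m + 1)), m / 2, by positivity, by positivity,
    by positivity, fun μ μ0 μ1 f2 G hf hG => ?_⟩
  have em : ∀ p, ∀ x ∈ ball (0 : ℂ × Hh n) R, emb (a p) x ∈ DomW (nbh d0 H mc V p) := by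
    intro p x hx
    rw [mem_ball_zero_iff] at hx
    have h2 : ‖x.2‖ < 1 := (norm_snd_le x).trans_lt (hx.trans_le R2)
    exact ⟨am p _ (by linarith [norm_fst_le x]), h2, h2, h2⟩
  obtain ⟨g, hg⟩ : ∃ g : P → ℂ × Hh n → ℂ × Hh n, g = fun p x =>
      (-(κ p : ℂ) * ((Pm p (emb (a p) x).1 - Pm p (a p)).2 - x.1 * J p + f2 p (emb (a p) x)),
        G p (emb (a p) x)) := ⟨_, rfl⟩
  have gb : ∀ p, ∀ x ∈ ball (0 : ℂ × Hh n) R,
      ‖g p x‖ ≤ 1 / m * (A * ‖x‖ ^ 2) + (1 / m + 1) * μ := by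
    intro p x hx
    have h1 := hA p x.1 (by linarith [norm_fst_le x, mem_ball_zero_iff.1 hx])
    have h2 := hf.bd p _ (em p x hx)
    have h3 : A * ‖x.1‖ ^ 2 ≤ A * ‖x‖ ^ 2 := by gcongr; exact norm_fst_le x
    have h4 : 0 ≤ 1 / m * (A * ‖x‖ ^ 2) := by positivity
    have h5 : 0 ≤ 1 / m * μ := by positivity
    rw [hg]
    refine norm_prod_le_iff.2 ⟨?_, (pi_norm_le_iff_of_nonneg (by positivity)).2 fun j => ?_⟩
    · rw [norm_mul, norm_neg, Complex.norm_real, Real.norm_eq_abs]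
      refine (mul_le_mul (hκ p).1 ((norm_add_le _ _).trans (add_le_add (h1.trans h3) h2))
        (norm_nonneg _) (by positivity)).trans ?_
      linarith
    · linarith [(hG j).bd p _ (em p x hx)]
  have gb' : ∀ p, ∀ x ∈ ball (0 : ℂ × Hh n) R, ‖g p x‖ ≤ R / 8 := by
    intro p x hx
    have h1 : ‖x‖ ^ 2 ≤ m / (16 * A) * R := by
      rw [sq]
      exact mul_le_mul ((mem_ball_zero_iff.1 hx).le.trans R3) (mem_ball_zero_iff.1 hx).le
        (norm_nonneg _) (by positivity)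
    have h2 : 1 / m * (A * ‖x‖ ^ 2) ≤ R / 16 :=
      calc 1 / m * (A * ‖x‖ ^ 2) ≤ 1 / m * (A * (m / (16 * A) * R)) := by gcongr
        _ = R / 16 := by field_simp
    have h3 := (le_div_iff₀ (by positivity)).1 μ1
    linarith [gb p x hx]
  have gd : ∀ p, DifferentiableOn ℂ (g p) (ball 0 R) := fun p => by
    have e : Differentiable ℂ (emb (n := n) (a p)) := by unfold emb; fun_prop
    have h1 := (h.pd p).comp e.fst.differentiableOn fun x hx => (em p x hx).1
    have h2 := (hf.diff p).comp e.differentiableOn (em p)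
    have h3 := (differentiableOn_pi.2 fun j => (hG j).diff p).comp e.differentiableOn (em p)
    rw [hg]
    exact ((((h1.sub_const _).snd.sub (by fun_prop)).add h2).const_mul _).prodMk h3
  have sb : ∀ {x : ℂ × Hh n}, ‖x‖ ≤ R / 4 → x ∈ ball (0 : ℂ × Hh n) (R / 2) := fun hx =>
    mem_ball_zero_iff.2 (by linarith)
  have sb' : ∀ {x : ℂ × Hh n}, ‖x‖ ≤ R / 4 → x ∈ ball (0 : ℂ × Hh n) R := fun hx =>
    mem_ball_zero_iff.2 (by linarith)
  obtain ⟨ξ, ξc, hξ⟩ := fixc
    (S := {x : ℂ × Hh n | ‖x‖ ≤ R / 4 ∧ x.1.im = 0 ∧ ∀ j, (x.2 j).im = 0})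
    (clo n (R / 4)) ⟨by rw [norm_zero]; positivity, rfl, fun _ => rfl⟩ g
    (fun p x hx => by
      have e := emb_real (ar p) hx.2.1 hx.2.2
      have h1 := em p x (sb' hx.1)
      have h2 := (h.pr p _ h1.1 ⟨by simp [emb, (ar p).1, hx.2.1], by simp [emb, (ar p).2]⟩).2
      have h3 := (h.pr p _ (a0 p) (ar p)).2
      have h4 : (f2 p (emb (a p) x)).im = 0 := by
        rw [e] at h1 ⊢
        exact hf.real p _ _ _ _ h1
      refine ⟨(gb' p x (sb' hx.1)).trans (by linarith), ?_, fun j => ?_⟩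
      · simp [hg, h2, h3, h4, hx.2.1]
      · rw [hg]
        show (G p (emb (a p) x) j).im = 0
        rw [e] at h1 ⊢
        exact (hG j).real p _ _ _ _ h1)
    (fun p x hx y hy => by
      have := (cauS _ _ (g p) 0 R (R / 8) R0 (gd p) (gb' p)).2.2.2.1 x (sb hx.1) y (sb hy.1)
      rwa [show 4 * (R / 8) / R = 1 / 2 by field_simp; norm_num] at this)
    fun x hx => by
      have e : Continuous fun p => emb (a p) x := by unfold emb; fun_prop
      have h1 := h.pc.comp_continuous (continuous_id.prodMk e.fst) fun p => (em p x (sb' hx.1)).1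
      have h2 := h.pc.comp_continuous (continuous_id.prodMk ac) a0
      have h3 := hf.cont.comp_continuous (continuous_id.prodMk e) fun p => em p x (sb' hx.1)
      have h4 := continuous_pi fun j =>
        (hG j).cont.comp_continuous (continuous_id.prodMk e) fun p => em p x (sb' hx.1)
      rw [hg]
      exact (Continuous.mul (by fun_prop) (((h1.sub h2).snd.sub (by fun_prop)).add h3)).prodMk h4
  have eb : ∀ p, base H mc V (fun p => (ξ p).1.re) (fun p j => ((ξ p).2 j).re) p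
      = emb (a p) (ξ p) := fun p => by
    have e1 : (((ξ p).1.re : ℝ) : ℂ) = (ξ p).1 := Complex.ext rfl (by simp [(hξ p).1.2.1])
    have e2 : (fun j => ((((ξ p).2 j).re : ℝ) : ℂ)) = (ξ p).2 :=
      funext fun j => Complex.ext rfl (by simp [(hξ p).1.2.2 j])
    simp only [base, emb, e1, e2, ha]
  have xb : ∀ p, ‖ξ p‖ ≤ 2 * (1 / m + 1) * μ := fun p => by
    have := gb p 0 (mem_ball_self R0)
    rw [norm_zero, zero_pow two_ne_zero, mul_zero, mul_zero, zero_add] at this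
    linarith [(hξ p).2.2]
  refine ⟨fun p => (ξ p).1.re, fun p j => ((ξ p).2 j).re, by fun_prop, by fun_prop,
    fun p => ⟨(Complex.abs_re_le_norm _).trans ((norm_fst_le _).trans (xb p)),
      (pi_norm_le_iff_of_nonneg (by positivity)).2 fun j => (Complex.abs_re_le_norm _).trans
        ((norm_le_pi_norm _ j).trans ((norm_snd_le _).trans (xb p)))⟩,
    fun p j => ?_, fun p hp => ?_⟩
  · have e := congrFun (congrArg Prod.snd (hξ p).2.1) j
    rw [hg] at e
    rw [eb]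
    exact e.trans (Complex.ext rfl (by simp [(hξ p).1.2.2 j]))
  · have e := congrArg Prod.fst (hξ p).2.1
    have k : (κ p : ℂ) * J p = 1 := by
      exact_mod_cast (hκ p).2 ((le_max_iff.1 (hm p trivial)).resolve_left (by linarith))
    rw [hg] at e
    rw [eb, ← ha]
    linear_combination (-(J p : ℂ)) * e - ((Pm p (emb (a p) (ξ p)).1 - Pm p (a p)).2 +
      f2 p (emb (a p) (ξ p)) - (ξ p).1 * J p) * k

end Pool.Agent.MP_1ba41f_an.S2.LB
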