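import Pool.Agent.MP_1ba41f_an.S2.LB.Bas

/-! Row FR1: the image curve, its tangent and the image of the transversal field. -/

set_option autoImplicit false

open Set Metric Filter Topology

namespace Pool.Agent.MP_1ba41f_an.S2.LB

namespace Fr1P

variable {P : Type} [TopologicalSpace P] {s M : ℝ} {K : P → ℂ → C2}

theorem real_deriv {g : ℂ → C2} {g' : C2} {x : ℝ} (h : HasDerivAt g g' x)
    (hr : ∀ᶠ t : ℝ in 𝓝 x, RealC2 (g t)) : RealC2 g' :=
  ⟨im_deriv (g := fun z => (g z).1)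
      ((ContinuousLinearMap.fst ℂ ℂ ℂ).hasFDerivAt.comp_hasDerivAt _ h) (hr.mono fun _ ht => ht.1),
    im_deriv (g := fun z => (g z).2)
      ((ContinuousLinearMap.snd ℂ ℂ ℂ).hasFDerivAt.comp_hasDerivAt _ h) (hr.mono fun _ ht => ht.2)⟩

theorem cv_deriv (dc : DcStmt) (h : Cv (2 * s) M K) (hs : 0 < s) :
    Cv s (2 * M / s) fun p => deriv (K p) := by
  have hss : strip s ⊆ strip (2 * s) := strip_mono (by linarith)
  refine ⟨?_, fun p => ((h.diff p).deriv (strip_open _)).mono hss, fun p θ hθ => ?_,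
    fun p θ => ?_, fun p θ hθ => ?_⟩
  · have h1 := dc P ℂ C2 (univ ×ˢ strip (2 * s)) K (isOpen_univ.prod (strip_open _)) h.cont
      fun p => (h.diff p).mono fun _ hx => hx.2
    exact h1.comp (f := fun q : P × ℂ => (q, (1 : ℂ))) (by fun_prop)
      fun q hq => ⟨⟨trivial, hss hq.2⟩, trivial⟩
  · rw [← deriv_comp_add_const]
    refine Filter.EventuallyEq.deriv_eq ?_
    filter_upwards [(strip_open _).mem_nhds (hss hθ)] with z hz using h.per p z hz
  · have h1 := ((h.diff p).differentiableAt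
      ((strip_open _).mem_nhds (real_mem_strip (by linarith) θ))).hasDerivAt
    exact real_deriv h1 (Eventually.of_forall fun t => h.real p t)
  · rw [norm_deriv_eq_norm_fderiv]
    exact (cauS ℂ C2 (K p) θ s M hs ((h.diff p).mono (ball_sub_strip hθ))
      fun z hz => h.bd p z (ball_sub_strip hθ hz)).1

theorem near (h : Cv (2 * s) M K) (hs : 0 < s) (p : P) {θ : ℂ} (hθ : θ ∈ strip s) :
    ‖K p θ - K p θ.re‖ ≤ 2 * M / s * |θ.im| := by
  have e : ‖θ - θ.re‖ = |θ.im| := by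
    have : θ - θ.re = θ.im * Complex.I := by
      apply Complex.ext <;> simp
    rw [this, norm_mul, Complex.norm_I, mul_one, Complex.norm_real, Real.norm_eq_abs]
  have := h.lip p (real_mem_strip hs θ.re) (ξ := θ - θ.re) (e ▸ hθ)
  rwa [add_sub_cancel, e] at this

end Fr1P

theorem fr1 (dc : DcStmt) : Fr1Stmt := by
  intro P _ _ s0 d om V N Pm h
  have hs0 := h.s0pos
  have hd := h.dpos
  obtain ⟨MV, hMV, cV⟩ := h.cv.cv hs0
  obtain ⟨MN, hMN, cN⟩ := h.cn.cv hs0
  obtain ⟨M0, hM0, b0⟩ := tube_bd (γ := fun p θ => V p θ) (crv_cont h.cv hs0) (crv_per h.cv hs0)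
    (d := d) (d' := 3 * d / 4) (by linarith) h.pc
  obtain ⟨s, hs, hs1, hs2⟩ : ∃ s : ℝ, 0 < s ∧ s ≤ s0 / 8 ∧ s ≤ d * s0 / (128 * MV) :=
    ⟨min (s0 / 8) (d * s0 / (128 * MV)), lt_min (by positivity) (by positivity), min_le_left _ _,
      min_le_right _ _⟩
  have near : ∀ p, ∀ θ ∈ strip (2 * s), ‖V p θ - V p θ.re‖ ≤ d / 8 := by
    intro p θ hθ
    have h1 := Fr1P.near (s := s0 / 4) (cV.mono (by linarith) le_rfl) (by positivity) p
      (strip_mono (by linarith) hθ)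
    have h2 : |θ.im| ≤ 2 * (d * s0 / (128 * MV)) := by
      have : |θ.im| < 2 * s := hθ
      linarith
    refine h1.trans ((mul_le_mul_of_nonneg_left h2 (by positivity)).trans (le_of_eq ?_))
    field_simp
    ring
  have inb : ∀ p, ∀ θ ∈ strip (2 * s), ∀ x ∈ ball (V p θ) (d / 2),
      x ∈ nb d V p ∧ ‖Pm p x‖ ≤ M0 := by
    intro p θ hθ x hx
    have h1 : ‖x - V p θ.re‖ ≤ 3 * d / 4 := by
      have h2 := norm_sub_le_norm_sub_add_norm_sub x (V p θ) (V p θ.re)
      have h3 := mem_ball_iff_norm.1 hx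
      have h4 := near p θ hθ
      linarith
    exact ⟨⟨θ.re, by linarith⟩, b0 p θ.re x h1⟩
  have self : ∀ p, ∀ θ ∈ strip (2 * s), V p θ ∈ nb d V p ∧ ‖Pm p (V p θ)‖ ≤ M0 :=
    fun p θ hθ => inb p θ hθ _ (mem_ball_self (by positivity))
  have cau := fun p θ (hθ : θ ∈ strip (2 * s)) => cauS C2 C2 (Pm p) (V p θ) (d / 2) M0
    (by positivity) ((h.pd p).mono fun x hx => (inb p θ hθ x hx).1)
    fun x hx => (inb p θ hθ x hx).2
  have cV' : Cv (2 * s) MV V := cV.mono (by linarith) le_rfl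
  have cN' : Cv (2 * s) MN N := cN.mono (by linarith) le_rfl
  have hs2' : 0 < 2 * s := by positivity
  have cc : Cv (2 * s) M0 fun p θ => Pm p (V p θ) :=
    ⟨h.pc.comp (f := fun q : P × ℂ => (q.1, V q.1 q.2)) (continuousOn_fst.prodMk cV'.cont)
        fun q hq => (self q.1 q.2 hq.2).1,
      fun p => (h.pd p).comp (cV'.diff p) fun θ hθ => (self p θ hθ).1,
      fun p θ hθ => by rw [cV'.per p θ hθ],
      fun p θ => h.pr p _ (self p θ (real_mem_strip hs2' θ)).1 (cV'.real p θ),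
      fun p θ hθ => (self p θ hθ).2⟩
  have cT := Fr1P.cv_deriv dc cc hs
  have cν : Cv (2 * s) (2 * M0 / (d / 2) * MN)
      fun p θ => fderiv ℂ (Pm p) (V p θ) (N p θ) := by
    refine ⟨?_, fun p => ?_, fun p θ hθ => by rw [cV'.per p θ hθ, cN'.per p θ hθ],
      fun p θ => ?_, fun p θ hθ => ?_⟩
    · have h1 := dc P C2 C2 {q | q.2 ∈ nb d V q.1} Pm (nb_open h.cv hs0 d) h.pc h.pd
      exact h1.comp (f := fun q : P × ℂ => ((q.1, V q.1 q.2), N q.1 q.2))
        ((continuousOn_fst.prodMk cV'.cont).prodMk cN'.cont)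
        fun q hq => ⟨(self q.1 q.2 hq.2).1, trivial⟩
    · have h1 := ((holB cauS C2 C2 _ (nb_fibre_open d V p)).2 (Pm p) (h.pd p)).2
      have h2 : ∀ v : C2, DifferentiableOn ℂ (fun θ => fderiv ℂ (Pm p) (V p θ) v)
          (strip (2 * s)) := fun v => (h1 v).comp (cV'.diff p) fun θ hθ => (self p θ hθ).1
      refine (((cN'.diff p).fst.smul (h2 (1, 0))).add ((cN'.diff p).snd.smul (h2 (0, 1)))).congr
        fun θ _ => ?_
      have e : N p θ = (N p θ).1 • ((1, 0) : C2) + (N p θ).2 • ((0, 1) : C2) := by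
        ext <;> simp
      conv_lhs => rw [e, map_add, map_smul, map_smul]
      rfl
    · have hθ := real_mem_strip hs2' θ
      have h1 : HasDerivAt (fun z : ℂ => V p θ + z • N p θ) (N p θ) ((0 : ℝ) : ℂ) := by
        simpa using ((hasDerivAt_id ((0 : ℝ) : ℂ)).smul_const (N p θ)).const_add (V p θ)
      have h2 : HasFDerivAt (Pm p) (fderiv ℂ (Pm p) (V p θ))
          (V p θ + (((0 : ℝ) : ℂ)) • N p θ) := by
        simpa using ((h.pd p).differentiableAt
          ((nb_fibre_open d V p).mem_nhds (self p θ hθ).1)).hasFDerivAt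
      refine Fr1P.real_deriv (HasFDerivAt.comp_hasDerivAt
        (f := fun z : ℂ => V p θ + z • N p θ) ((0 : ℝ) : ℂ) h2 h1) ?_
      have h3 : ContinuousAt (fun t : ℝ => V p θ + (t : ℂ) • N p θ) 0 := by fun_prop
      have h4 := h3.preimage_mem_nhds ((nb_fibre_open d V p).mem_nhds (by
        simpa using (self p θ hθ).1))
      filter_upwards [h4] with t ht
      refine h.pr p _ ht ⟨?_, ?_⟩
      · simp [(cV'.real p θ).1, (cN'.real p θ).1]
      · simp [(cV'.real p θ).2, (cN'.real p θ).2]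
    · exact (ContinuousLinearMap.le_opNorm _ _).trans
        (mul_le_mul (cau p θ hθ).1 (cN'.bd p θ hθ) (norm_nonneg _) (by positivity))
  have p1 : 0 < 2 * M0 / s := by positivity
  have p2 : 0 < 2 * M0 / (d / 2) * MN := by positivity
  have p3 : 0 < 4 * M0 / (d / 2) ^ 2 * MN ^ 2 := by positivity
  have hss : s ≤ 2 * s := by linarith
  refine ⟨s, d / (4 * MN), MV + MN + M0 + 2 * M0 / s + 2 * M0 / (d / 2) * MN +
    4 * M0 / (d / 2) ^ 2 * MN ^ 2, hs, by positivity, by positivity, cV'.mono hss (by linarith),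
    cN'.mono hss (by linarith), cc.mono hss (by linarith), cT.mono le_rfl (by linarith),
    cν.mono hss (by linarith), fun _ _ _ => rfl, fun p θ hθ Y hY => ?_⟩
  have hθ' := strip_mono hss hθ
  have h1 : ‖Y • N p θ‖ ≤ ‖Y‖ * MN := by
    rw [norm_smul]
    exact mul_le_mul_of_nonneg_left (cN'.bd p θ hθ') (norm_nonneg _)
  have h2 : ‖Y‖ * MN ≤ d / 4 :=
    (mul_le_mul_of_nonneg_right hY hMN.le).trans (le_of_eq (by field_simp))
  have h3 : V p θ + Y • N p θ ∈ ball (V p θ) (d / 2) := by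
    rw [mem_ball_iff_norm, add_sub_cancel_left]
    linarith
  refine ⟨(inb p θ hθ' _ h3).1, ?_⟩
  have h4 := (cau p θ hθ').2.2.1 _ h3
  rw [add_sub_cancel_left, map_smul] at h4
  refine h4.trans ?_
  have h5 : ‖Y • N p θ‖ ^ 2 ≤ (‖Y‖ * MN) ^ 2 := by gcongr
  calc 4 * M0 / (d / 2) ^ 2 * ‖Y • N p θ‖ ^ 2 ≤ 4 * M0 / (d / 2) ^ 2 * (‖Y‖ * MN) ^ 2 := by gcongr
    _ = 4 * M0 / (d / 2) ^ 2 * MN ^ 2 * ‖Y‖ ^ 2 := by ring
    _ ≤ _ := mul_le_mul_of_nonneg_right (by linarith) (by positivity)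

end Pool.Agent.MP_1ba41f_an.S2.LB
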