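import Pool.Agent.MP_1ba41f_an.S2.LB.Bas

/-! Invariant circles of all sizes down to zero: the frame. -/

set_option autoImplicit false

open Set Metric Filter Topology

namespace Pool.Agent.MP_1ba41f_an.S2.LB

namespace Frame

theorem refl_mem {s : ℝ} {θ : ℂ} (h : θ ∈ strip s) (a : ℝ) : -θ - a ∈ strip s := by
  simpa [strip] using h

theorem cv_sym {P : Type} [TopologicalSpace P] {s M : ℝ} {ν : P → ℂ → C2} {om : P → ℝ}
    (h : Cv s M ν) (ho : Continuous om) :
    Cv s M fun p θ => (1 / 2 : ℂ) • (ν p θ + Gm (ν p (-θ - om p))) := by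
  refine ⟨?_, fun p => ?_, fun p θ hθ => ?_, fun p θ => ?_, fun p θ hθ => ?_⟩
  · exact (h.cont.add (continuous_Gm.comp_continuousOn
      (h.cont.comp (f := fun q : P × ℂ => (q.1, -q.2 - (om q.1 : ℂ))) (by fun_prop)
        fun q hq => ⟨trivial, refl_mem hq.2 _⟩))).const_smul (1 / 2 : ℂ)
  · exact ((h.diff p).add (differentiable_Gm.comp_differentiableOn
      ((h.diff p).comp (f := fun θ : ℂ => -θ - (om p : ℂ)) (by fun_prop)
        fun θ hθ => refl_mem hθ _))).const_smul (1 / 2 : ℂ)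
  · have e := h.per p (-(θ + 2 * Real.pi) - om p) (by simpa [strip] using hθ)
    rw [show -(θ + 2 * (Real.pi : ℂ)) - om p + 2 * Real.pi = -θ - om p by ring] at e
    simp only [h.per p θ hθ, e]
  · have a := h.real p θ
    have b := h.real p (-θ - om p)
    push_cast at b
    exact ⟨by simp [Gm, a.1, b.1], by simp [Gm, a.2, b.2]⟩
  · have a := h.bd p θ hθ
    have b := h.bd p _ (refl_mem hθ (om p))
    rw [← norm_Gm] at b
    rw [norm_smul]
    have := norm_add_le (ν p θ) (Gm (ν p (-θ - om p)))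
    norm_num
    linarith

theorem cont_det : Continuous fun q : C2 × C2 => det2 q.1 q.2 := by unfold det2; fun_prop

end Frame

open Pool.Agent.MP_1ba41f_an.S2.LB.Frame

theorem frame (fr1 : Fr1Stmt) : FrameStmt := by
  intro P _ _ s0 d om V N Pm hN
  obtain ⟨s, ρ, M, h⟩ := fr1 P s0 d om V N Pm hN
  obtain ⟨T, hT⟩ : ∃ T : P → ℂ → C2, T = fun p => deriv fun θ => Pm p (V p θ) := ⟨_, rfl⟩
  obtain ⟨ν, hν⟩ : ∃ ν : P → ℂ → C2, ν = fun p θ => fderiv ℂ (Pm p) (V p θ) (N p θ) := ⟨_, rfl⟩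
  rw [← hT, ← hν] at h
  have s0' := h.spos
  have M0 := h.Mpos
  obtain ⟨π, hπ⟩ : ∃ π : P → ℂ → C2,
      π = fun p θ => (1 / 2 : ℂ) • (ν p θ + Gm (ν p (-θ - om p))) := ⟨_, rfl⟩
  have cπ : Cv s M π := hπ ▸ cv_sym h.cν hN.omc
  have eT : ∀ p (θ : ℝ), T p θ = fderiv ℂ (Pm p) (V p θ) (deriv (V p) θ) := fun p θ => by
    have a := ((hN.cv.diff p).differentiableAt
      ((strip_open s0).mem_nhds (real_mem_strip hN.s0pos θ))).hasDerivAt
    have b := ((hN.pd p).differentiableAt ((nb_fibre_open d V p).mem_nhds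
      (show V p θ ∈ nb d V p from ⟨θ, by simpa using hN.dpos⟩))).hasFDerivAt
    rw [hT]
    exact (b.comp_hasDerivAt (θ : ℂ) a).deriv
  have cd : Continuous fun q : P × ℝ => det2 (π q.1 q.2) (T q.1 q.2) :=
    cont_det.comp ((cπ.cont_real s0').prodMk (h.cT.cont_real s0'))
  have sy : ∀ p (θ : ℝ), det2 (ν p θ - π p θ) (T p θ) = 0 := fun p θ => by
    have c1 : Continuous fun p : P => det2 (ν p θ - π p θ) (T p θ) :=
      (cont_det.comp (((h.cν.cont_real s0').sub (cπ.cont_real s0')).prodMk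
        (h.cT.cont_real s0'))).comp (f := fun p : P => (p, θ)) (by fun_prop)
    refine congrFun (Continuous.ext_on hN.sym c1 continuous_const fun p hp => ?_) p
    have e := hp θ
    rw [← eT] at e
    push_cast at e
    simp only [hπ, hν, det2, Gm, Prod.fst_sub, Prod.snd_sub, Prod.smul_fst, Prod.smul_snd,
      Prod.fst_add, Prod.snd_add, smul_eq_mul] at e ⊢
    linear_combination 1 / 2 * e
  have ne : ∀ p (θ : ℝ), det2 (π p θ) (T p θ) ≠ 0 := fun p θ e => by
    have a := hN.trv p θ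
    have b := sy p θ
    rw [← eT] at a
    apply a
    simp only [hν, det2, Prod.fst_sub, Prod.snd_sub] at b e ⊢
    linear_combination b + e
  obtain ⟨a, a0, ha⟩ := (isCompact_univ.prod (isCompact_Icc (a := (0 : ℝ)) (b := 2 * Real.pi))
    ).exists_forall_le' cd.norm.continuousOn (a := 0) fun q _ => norm_pos_iff.2 (ne q.1 q.2)
  have lb : ∀ p (θ : ℝ), a ≤ ‖det2 (π p θ) (T p θ)‖ := fun p θ => by
    obtain ⟨θ', h', e⟩ := per_red (γ := fun θ : ℝ => det2 (π p θ) (T p θ)) (fun θ => by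
      push_cast
      rw [cπ.per p _ (real_mem_strip s0' θ), h.cT.per p _ (real_mem_strip s0' θ)]) θ
    rw [e]
    exact ha (p, θ') ⟨trivial, h'⟩
  obtain ⟨L, hL⟩ : ∃ L, L = 2 * M / (s / 2) := ⟨_, rfl⟩
  have L0 : 0 < L := by rw [hL]; positivity
  have le : 2 * min (s / 2) (a / (8 * L * M)) ≤ s := by linarith [min_le_left (s / 2) (a / (8 * L * M))]
  refine ⟨min (s / 2) (a / (8 * L * M)), ρ, M, a / 2, _, T, ν, π,
    ⟨by positivity, h.ρpos, M0, h.cV.mono le le_rfl, h.cN.mono le le_rfl, h.cc.mono le le_rfl,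
      h.cT.mono le le_rfl, h.cν.mono le le_rfl, fun p θ hθ => h.hT p θ (strip_mono le hθ),
      fun p θ hθ => h.mem p θ (strip_mono le hθ)⟩, by positivity, cπ.mono le le_rfl,
    fun p θ hθ => ?_, hN.inv, fun p θ => ?_, sy⟩
  · obtain ⟨t1, t2⟩ := lt_min_iff.1 (show |θ.im| < _ from hθ)
    have n1 : ‖(θ.im : ℂ) * Complex.I‖ = |θ.im| := by simp
    have m0 := real_mem_strip (half_pos s0') θ.re
    have l1 := (cπ.mono (s' := 2 * (s / 2)) (by linarith) le_rfl).lip p m0 (n1 ▸ t1)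
    have l2 := (h.cT.mono (s' := 2 * (s / 2)) (by linarith) le_rfl).lip p m0 (n1 ▸ t1)
    rw [Complex.re_add_im, n1, ← hL] at l1 l2
    have b1 := h.cT.bd p θ (show |θ.im| < s by linarith)
    have b2 := cπ.bd p θ.re (real_mem_strip s0' _)
    have e : det2 (π p θ.re) (T p θ.re) = det2 (π p θ) (T p θ) -
        (det2 (π p θ - π p θ.re) (T p θ) + det2 (π p θ.re) (T p θ - T p θ.re)) := by
      simp only [det2, Prod.fst_sub, Prod.snd_sub]
      ring
    have c1 := (norm_det2 (π p θ - π p θ.re) (T p θ)).trans (mul_le_mul_of_nonneg_left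
      (mul_le_mul l1 b1 (norm_nonneg _) (by positivity)) two_pos.le)
    have c2 := (norm_det2 (π p θ.re) (T p θ - T p θ.re)).trans (mul_le_mul_of_nonneg_left
      (mul_le_mul b2 l2 (norm_nonneg _) M0.le) two_pos.le)
    have c3 := lb p θ.re
    rw [e] at c3
    have c4 := c3.trans ((norm_sub_le _ _).trans (add_le_add le_rfl (norm_add_le _ _)))
    rw [lt_div_iff₀ (by positivity)] at t2
    linarith
  · push_cast
    simp only [hπ, show -(-(θ : ℂ) - om p) - om p = θ by ring]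
    ext <;> simp [Gm] <;> ring

end Pool.Agent.MP_1ba41f_an.S2.LB
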