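import Pool.Agent.MP_1ba41f_an.S2.LB.Bas

/-! Invariant circles of all sizes down to zero: row LIFT. -/

set_option autoImplicit false

noncomputable section
open Set Metric

namespace Pool.Agent.MP_1ba41f_an.S2.LB

namespace Lift

variable {P : Type} {n : ℕ}

/-- scaling of the slaves -/
def Lam (c0 : ℝ) (x : Ws n) : Ws n :=
  (x.1, (c0 : ℂ) • x.2.1, (c0 : ℂ) • x.2.2.1, (c0 : ℂ) • x.2.2.2)

/-- the base point in normalised variables -/
def bb (n : ℕ) (V : P → ℂ → C2) (p : P) : Ws n := (V p 0, 0, 0, 0)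

theorem Lam_diff (c0 : ℝ) : Differentiable ℂ (Lam (n := n) c0) := by
  unfold Lam
  fun_prop

theorem Lam_zero (c0 : ℝ) : Lam (n := n) c0 0 = 0 := by
  simp [Lam]

theorem lift_eq (H mc D1 : P → ℝ) (V : P → ℂ → C2) (Dh : P → Fin n → ℝ) (c0 : ℝ) (p : P)
    (z : Ws n) : lift H mc D1 Dh c0 p z =
      base H mc V D1 Dh p + Lam c0 ((H p : ℂ) • (z - bb n V p)) := by
  refine Prod.ext (Prod.ext ?_ ?_) (Prod.ext ?_ (Prod.ext ?_ ?_))
  · simp [lift, base, Lam, bb, cur]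
    ring
  · simp [lift, base, Lam, bb, cur]
    ring
  · funext j
    simp [lift, base, Lam, bb, mul_assoc]
  · funext j
    simp [lift, base, Lam, bb, mul_assoc]
  · funext j
    simp [lift, base, Lam, bb, mul_assoc]

theorem slave {D : Fin n → ℝ} {c : ℝ} {k : Hh n} (hD : ‖D‖ ≤ 1 / 4) (hc : |c| * ‖k‖ ≤ 1 / 2) :
    ‖(fun j => (D j : ℂ) : Hh n) + (c : ℂ) • k‖ < 1 := by
  have h1 : ‖(fun j => (D j : ℂ) : Hh n)‖ ≤ 1 / 4 :=
    (pi_norm_le_iff_of_nonneg (by norm_num)).2 fun j => by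
      rw [Complex.norm_real]
      exact (norm_le_pi_norm D j).trans hD
  have h2 : ‖(c : ℂ) • k‖ ≤ 1 / 2 := by
    rw [norm_smul, Complex.norm_real, Real.norm_eq_abs]
    exact hc
  exact (norm_add_le _ _).trans_lt (by linarith)

theorem norm_sh (a : ℝ) : ‖(((a : ℂ), 0) : C2)‖ = |a| := by
  simp [Prod.norm_def]

theorem mem_lift {d0 d1 c0 : ℝ} {H mc D1 : P → ℝ} {V : P → ℂ → C2} {Dh : P → Fin n → ℝ} {p : P}
    (hd : 0 < d0) (hc0 : 0 < c0) (h0 : 0 ≤ H p) (h1 : H p * d1 ≤ d0 / 4) (h2 : c0 * H p ≤ 1 / 4)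
    (hD : |D1 p| ≤ d0 / 8 ∧ ‖Dh p‖ ≤ 1 / 4) {z : Ws n} (hz : z ∈ DomW (nb d1 V p)) :
    lift H mc D1 Dh c0 p z ∈ DomW (nbh (d0 / 2) H mc V p) := by
  obtain ⟨⟨θ, hθ⟩, k0, k1, k2⟩ := hz
  have key : ∀ k : Hh n, ‖k‖ < 1 → ‖(fun j => (Dh p j : ℂ) + c0 * H p * k j : Hh n)‖ < 1 := by
    intro k hk
    have e : (fun j => (Dh p j : ℂ) + c0 * H p * k j : Hh n) =
        (fun j => (Dh p j : ℂ) : Hh n) + ((c0 * H p : ℝ) : ℂ) • k := by
      funext j
      simp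
    rw [e]
    refine slave hD.2 ?_
    rw [abs_of_nonneg (by positivity)]
    nlinarith [norm_nonneg k, mul_nonneg hc0.le h0]
  refine ⟨⟨θ, ?_⟩, key _ k0, key _ k1, key _ k2⟩
  have e : (lift H mc D1 Dh c0 p z).1 - cur H mc V p θ =
      ((D1 p : ℂ), 0) + (H p : ℂ) • (z.1 - V p θ) := by
    refine Prod.ext ?_ ?_
    · simp [lift, cur]
      ring
    · simp [lift, cur]
      ring
  rw [e]
  refine (norm_add_le _ _).trans_lt ?_
  rw [norm_sh, norm_smul, Complex.norm_real, Real.norm_eq_abs, abs_of_nonneg h0]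
  have : H p * ‖z.1 - V p θ‖ ≤ H p * d1 := mul_le_mul_of_nonneg_left hθ.le h0
  linarith [hD.1]

theorem mem_ball' {d0 c0 : ℝ} {H mc D1 : P → ℝ} {V : P → ℂ → C2} {Dh : P → Fin n → ℝ} {p : P}
    (hc0 : 0 < c0) (hc1 : c0 ≤ 1) (hD : |D1 p| ≤ d0 / 8 ∧ ‖Dh p‖ ≤ 1 / 4) {x : Ws n}
    (hx : x ∈ ball (0 : Ws n) (min (d0 / 4) (1 / 2))) :
    base H mc V D1 Dh p + Lam c0 x ∈ DomW (nbh (d0 / 2) H mc V p) := by
  have hx' := mem_ball_zero_iff.1 hx
  have a1 : ‖x‖ < d0 / 4 := hx'.trans_le (min_le_left _ _)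
  have a2 : ‖x‖ < 1 / 2 := hx'.trans_le (min_le_right _ _)
  have key : ∀ k : Hh n, ‖k‖ ≤ ‖x‖ → ‖(fun j => (Dh p j : ℂ) : Hh n) + (c0 : ℂ) • k‖ < 1 := by
    intro k hk
    refine slave hD.2 ?_
    rw [abs_of_pos hc0]
    nlinarith [norm_nonneg k]
  refine ⟨⟨0, ?_⟩, key _ ((norm_fst_le _).trans (norm_snd_le x)),
    key _ (((norm_fst_le _).trans (norm_snd_le _)).trans (norm_snd_le x)),
    key _ (((norm_snd_le _).trans (norm_snd_le _)).trans (norm_snd_le x))⟩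
  have e : (base H mc V D1 Dh p + Lam c0 x).1 - cur H mc V p ((0 : ℝ) : ℂ) =
      ((D1 p : ℂ), 0) + x.1 := by
    simp only [base, Lam, Prod.fst_add, Complex.ofReal_zero]
    abel
  rw [e]
  refine (norm_add_le _ _).trans_lt ?_
  rw [norm_sh]
  have := norm_fst_le x
  have := abs_nonneg (D1 p)
  linarith [hD.1]

theorem dist_bb {d1 M : ℝ} {V : P → ℂ → C2} {p : P} (hd : 0 < d1)
    (hM : ∀ θ : ℝ, ‖V p θ‖ ≤ M) {z : Ws n} (hz : z ∈ DomW (nb d1 V p)) :
    ‖z - bb n V p‖ ≤ d1 + 2 * M + 1 := by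
  obtain ⟨⟨θ, hθ⟩, k0, k1, k2⟩ := hz
  have m0 : ‖V p 0‖ ≤ M := by simpa using hM 0
  have m1 : 0 ≤ M := (norm_nonneg _).trans m0
  have a1 : ‖z.1 - V p 0‖ ≤ d1 + 2 * M := by
    have e : z.1 - V p 0 = (z.1 - V p θ) + (V p θ - V p 0) := by abel
    rw [e]
    refine (norm_add_le _ _).trans ?_
    have := norm_sub_le (V p θ) (V p 0)
    linarith [hM θ]
  have e : z - bb n V p = (z.1 - V p 0, z.2.1, z.2.2.1, z.2.2.2) := by
    refine Prod.ext rfl (Prod.ext ?_ (Prod.ext ?_ ?_)) <;> simp [bb]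
  rw [e]
  simp only [Prod.norm_def, max_le_iff] at a1 ⊢
  refine ⟨⟨by linarith [a1.1], by linarith [a1.2]⟩, by linarith, by linarith, by linarith⟩

theorem real_pt {H mc D1 : P → ℝ} {V : P → ℂ → C2} {Dh : P → Fin n → ℝ} {c0 : ℝ} {p : P}
    (hV : RealC2 (V p 0)) (t : ℝ) (x : ℝ × ℝ) (h0 h1 h2 : Fin n → ℝ) :
    ∃ x' h0' h1' h2', base H mc V D1 Dh p + Lam c0 ((t : ℂ) • (rw3 x h0 h1 h2 - bb n V p)) =
      rw3 x' h0' h1' h2' := by
  have e1 : (V p 0).1 = ((V p 0).1.re : ℂ) := Complex.ext (by simp) (by simpa using hV.1)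
  have e2 : (V p 0).2 = ((V p 0).2.re : ℂ) := Complex.ext (by simp) (by simpa using hV.2)
  generalize (V p 0).1.re = a at e1
  generalize (V p 0).2.re = b at e2
  refine ⟨(mc p + H p * a + D1 p + t * (x.1 - a), H p * b + t * (x.2 - b)),
    fun j => Dh p j + c0 * (t * h0 j), fun j => Dh p j + c0 * (t * h1 j),
    fun j => Dh p j + c0 * (t * h2 j), ?_⟩
  refine Prod.ext (Prod.ext ?_ ?_) (Prod.ext ?_ (Prod.ext ?_ ?_))
  · simp [base, Lam, bb, cur, rw3, r2c, e1]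
  · simp [base, Lam, bb, cur, rw3, r2c, e2]
  · funext j
    simp [base, Lam, bb, rw3]
  · funext j
    simp [base, Lam, bb, rw3]
  · funext j
    simp [base, Lam, bb, rw3]

end Lift

open Lift in
theorem liftS (resc : RescStmt) : LiftStmt := by
  intro P _ _ s0 d0 d1 c0 H1 H mc V n hs hd0 hd1 hc0 hc1 hH1 hH h0 hm hV h1 h2
  obtain ⟨M0, hM0, hcv⟩ := hV.cv hs
  have hb : ∀ p (θ : ℝ), ‖V p θ‖ ≤ M0 := fun p θ => hcv.bd p θ (real_mem_strip (by linarith) θ)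
  have hρ : 0 < min (d0 / 4) (1 / 2) := lt_min (by linarith) (by norm_num)
  have hR : 0 < d1 + 2 * M0 + 1 := by linarith
  refine ⟨2 * (d1 + 2 * M0 + 1) / min (d0 / 4) (1 / 2) + 1 / H1, by positivity,
    fun D1 Dh cD1 cDh hD => ?_⟩
  have ml : ∀ p, ∀ z ∈ DomW (nb d1 V p), lift H mc D1 Dh c0 p z ∈ DomW (nbh (d0 / 2) H mc V p) :=
    fun p z hz => mem_lift hd0 hc0 (h0 p) (h1 p) (h2 p) (hD p) hz
  refine ⟨ml, fun M Ψ hΨ hz0 => ?_⟩
  have ml' : ∀ p, ∀ z ∈ DomW (nb d1 V p),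
      base H mc V D1 Dh p + Lam c0 ((H p : ℂ) • (z - bb n V p)) ∈ DomW (nbh (d0 / 2) H mc V p) :=
    fun p z hz => lift_eq H mc D1 V Dh c0 p z ▸ ml p z hz
  have cV : Continuous fun p => V p 0 := by
    refine ((crv_cont hV hs).comp (f := fun p : P => (p, (0 : ℝ))) (by fun_prop)).congr fun p => ?_
    simp
  have cb : Continuous (bb n V) := by
    unfold bb
    fun_prop
  have cD : Continuous fun p => (fun j => (Dh p j : ℂ) : Hh n) :=
    continuous_pi fun j => Complex.continuous_ofReal.comp ((continuous_apply j).comp cDh)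
  have cH : Continuous fun p => (H p : ℂ) := Complex.continuous_ofReal.comp hH
  have cB : Continuous (base H mc V D1 Dh) := by
    unfold base cur
    refine Continuous.prodMk ?_ (cD.prodMk (cD.prodMk cD))
    exact (Continuous.add (by fun_prop) (cH.smul cV)).add (by fun_prop)
  have cL : Continuous (Lam (n := n) c0) := (Lam_diff c0).continuous
  have dl : ∀ p, Differentiable ℂ fun z : Ws n =>
      base H mc V D1 Dh p + Lam c0 ((H p : ℂ) • (z - bb n V p)) := fun p =>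
    ((Lam_diff c0).comp (f := fun z : Ws n => (H p : ℂ) • (z - bb n V p))
      (by fun_prop)).const_add _
  obtain ⟨Q, q1, q2, q3, q4, -, q6⟩ := resc P (Ws n) H (bb n V) (fun p => DomW (nb d1 V p))
    (fun p x => Ψ p (base H mc V D1 Dh p + Lam c0 x)) (min (d0 / 4) (1 / 2)) (d1 + 2 * M0 + 1)
    H1 M hH h0 cb hρ hR hH1 (fun p z hz => dist_bb hd1 (hb p) hz)
    (hΨ.cont.comp (f := fun q : P × Ws n => (q.1, base H mc V D1 Dh q.1 + Lam c0 q.2))
      (continuous_fst.prodMk ((cB.comp continuous_fst).add (cL.comp continuous_snd))).continuousOn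
      fun q hq => mem_ball' hc0 hc1 (hD q.1) hq.2)
    (fun p => (hΨ.diff p).comp (f := fun x : Ws n => base H mc V D1 Dh p + Lam c0 x)
      ((Lam_diff c0).const_add _).differentiableOn fun x hx => mem_ball' hc0 hc1 (hD p) hx)
    (fun p x hx => hΨ.bd p _ (mem_ball' hc0 hc1 (hD p) hx))
    (fun p hp => by simpa [Lam_zero] using hz0 p hp)
    (hΨ.cont.comp (f := fun q : P × Ws n =>
        (q.1, base H mc V D1 Dh q.1 + Lam c0 ((H q.1 : ℂ) • (q.2 - bb n V q.1))))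
      (continuous_fst.prodMk ((cB.comp continuous_fst).add (cL.comp
        ((cH.comp continuous_fst).smul (continuous_snd.sub (cb.comp continuous_fst)))))).continuousOn
      fun q hq => ml' q.1 q.2 hq)
    (fun p => (hΨ.diff p).comp
      (f := fun z : Ws n => base H mc V D1 Dh p + Lam c0 ((H p : ℂ) • (z - bb n V p)))
      (dl p).differentiableOn fun z hz => ml' p z hz)
    (fun p z hz => hΨ.bd p _ (ml' p z hz))
  refine ⟨Q, ⟨q1, q2, q3, fun p x k0 k1 k2 hz => q6 p _ fun t ht => ?_⟩, fun p z => ?_⟩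
  · have hmem : base H mc V D1 Dh p + Lam c0 ((t : ℂ) • (rw3 x k0 k1 k2 - bb n V p)) ∈
        DomW (nbh (d0 / 2) H mc V p) := by
      rcases ht with rfl | ht
      · exact ml' p _ hz
      · refine mem_ball' hc0 hc1 (hD p) (mem_ball_zero_iff.2 ?_)
        rw [norm_smul, Complex.norm_real, Real.norm_eq_abs]
        exact (mul_le_mul_of_nonneg_left (dist_bb hd1 (hb p) hz) (abs_nonneg t)).trans_lt ht
    obtain ⟨x', a0, a1, a2, e⟩ := real_pt (H := H) (mc := mc) (D1 := D1) (Dh := Dh) (c0 := c0)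
      (p := p) (V := V) (by simpa using hV.real p 0) t x k0 k1 k2
    show (Ψ p _).im = 0
    rw [e] at hmem ⊢
    exact hΨ.real p _ _ _ _ hmem
  · rw [lift_eq H mc D1 V Dh c0 p z]
    exact q4 p z

end Pool.Agent.MP_1ba41f_an.S2.LB
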