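import Pool.Agent.MP_1ba41f_an.S2.LB.Hq

/-! Invariant circles of all sizes down to zero: the equations in Newton form. -/

set_option autoImplicit false

open Set

namespace Pool.Agent.MP_1ba41f_an.S2.LB

namespace Newt

theorem alg {E π T : C2} (hΔ : det2 π T ≠ 0) (h1 : det2 π E = 0) (h2 : det2 E T = 0) : E = 0 := by
  simp only [det2] at *
  refine Prod.ext (mul_left_cancel₀ hΔ ?_) (mul_left_cancel₀ hΔ ?_)
  · rw [Prod.fst_zero]
    linear_combination π.1 * h2 + T.1 * h1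
  · rw [Prod.snd_zero]
    linear_combination π.2 * h2 + T.2 * h1

theorem small {K a : ℝ} (hK : 0 < K) (ha : 0 < a) : ∃ t, 0 < t ∧ t ≤ 1 ∧ K * t ≤ a :=
  ⟨min 1 (a / K), by positivity, min_le_left _ _, by
    rw [← le_div_iff₀' hK]; exact min_le_right _ _⟩

end Newt

theorem newt : NewtStmt := by
  intro P _ s0 d om V N Pm s ρ M δ c T ν π nd fd n η hη
  have fr := fd.fr
  have hs : 0 < s := by linarith [fr.spos]
  have hM := fr.Mpos
  have hδ := fd.δpos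
  have hρ := fr.ρpos
  set K := M + 1 + 4 * M / s ^ 2 + 2 * (2 * M / s) with hK
  have K0 : 0 < K := by positivity
  obtain ⟨t, t0, t1, ht⟩ := Newt.small (K := 1 / η + 2 / s + 1 / ρ + (2 * (M * K) + 2 * (M * M)) / (δ * η))
    (by positivity) one_pos
  have p1 : 0 ≤ 1 / η * t := by positivity
  have p2 : 0 ≤ 2 / s * t := by positivity
  have p3 : 0 ≤ 1 / ρ * t := by positivity
  have p4 : 0 ≤ (2 * (M * K) + 2 * (M * M)) / (δ * η) * t := by positivity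
  have tη : t ≤ η := by
    have : 1 / η * t ≤ 1 := by linarith
    rwa [one_div, inv_mul_le_iff₀ hη, mul_one] at this
  have ts : 2 * t ≤ s := by
    have : 2 / s * t ≤ 1 := by linarith
    rwa [div_mul_eq_mul_div, div_le_one hs] at this
  have tρ : t ≤ ρ := by
    have : 1 / ρ * t ≤ 1 := by linarith
    rwa [one_div, inv_mul_le_iff₀ hρ, mul_one] at this
  have tK : (2 * (M * K) + 2 * (M * M)) * t ≤ δ * η := by
    have : (2 * (M * K) + 2 * (M * M)) / (δ * η) * t ≤ 1 := by linarith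
    rwa [div_mul_eq_mul_div, div_le_one (by positivity)] at this
  have pw : ∀ {a b : ℕ}, a ≤ b → t ^ b ≤ t ^ a := fun h => pow_le_pow_of_le_one t0.le t1 h
  have pw1 : ∀ {b : ℕ}, 1 ≤ b → t ^ b ≤ t := fun h => by simpa using pw h
  refine ⟨t ^ 4, t ^ 6, by positivity, pow_le_one₀ t0.le t1, by positivity, ?_⟩
  intro f1 f2 G h1 h2 h3
  have s2 : s ≤ 2 * s := by linarith
  have nrm : ∀ (k : ℕ) {x : ℂ}, ‖x‖ ≤ 1 → ‖((t ^ k : ℝ) : ℂ) * x‖ ≤ t ^ k := fun k x hx => by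
    rw [norm_mul, Complex.norm_real, Real.norm_of_nonneg (by positivity)]
    exact mul_le_of_le_one_right (by positivity) hx
  have bY : ∀ z ∈ Dom (n + 2) s, ‖((t ^ 4 : ℝ) : ℂ) * z.2.1‖ ≤ t ^ 4 := fun z hz => nrm 4 hz.2.1.le
  have bh : ∀ z ∈ Dom (n + 2) s, ∀ j, ‖z.2.2.1 j‖ ≤ 1 := fun z hz j =>
    (norm_le_pi_norm _ _).trans hz.2.2.1.le
  have bξ : ∀ z ∈ Dom (n + 2) s, ‖((t ^ 3 : ℝ) : ℂ) * z.2.2.1 0‖ ≤ t ^ 3 := fun z hz =>
    nrm 3 (bh z hz 0)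
  have t3 : t ^ 3 < s := by linarith [pw1 (b := 3) (by norm_num)]
  have mem := fun p z (hz : z ∈ Dom (n + 2) s) => fr.mem p z.1 (strip_mono s2 hz.1) _
    ((bY z hz).trans ((pw1 (by norm_num)).trans tρ))
  have mξ : ∀ (_ : P), ∀ z ∈ Dom (n + 2) s, z.1 + ((t ^ 3 : ℝ) : ℂ) * z.2.2.1 0 ∈ strip (2 * s) :=
    fun _ z hz => ball_sub_strip hz.1 (by simpa using (bξ z hz).trans_lt t3)
  have qY : Hq s fun (_ : P) (z : Zs (n + 2)) => ((t ^ 4 : ℝ) : ℂ) * z.2.1 := (Hq.const _).mul Hq.y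
  have qξ : Hq s fun (_ : P) (z : Zs (n + 2)) => ((t ^ 3 : ℝ) : ℂ) * z.2.2.1 0 :=
    (Hq.const _).mul (Hq.h 0)
  have vA := (fr.cV.hv0 s2).add (qY.smul (fr.cN.hv0 s2))
  have mA := fun p z hz => (mem p z hz).1
  have vπ := fd.cπ.hv0 (N := n + 2) s2
  have vT := fr.cT.hv0 (N := n + 2) s2
  have vν := fr.cν.hv0 (N := n + 2) s2
  have vc := fr.cc.hv0 (N := n + 2) s2
  set R : P → Zs (n + 2) → C2 := fun p z =>
    Pm p (V p z.1 + (((t ^ 4 : ℝ) : ℂ) * z.2.1) • N p z.1) - c p z.1 -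
      (((t ^ 4 : ℝ) : ℂ) * z.2.1) • ν p z.1 + (f1 p (Wz V N (t ^ 4) p z), f2 p (Wz V N (t ^ 4) p z)) -
      (c p (z.1 + ((t ^ 3 : ℝ) : ℂ) * z.2.2.1 0) - c p z.1 - (((t ^ 3 : ℝ) : ℂ) * z.2.2.1 0) • T p z.1) -
      (((t ^ 4 : ℝ) : ℂ) * (z.2.1 + z.2.2.1 1)) •
        (π p (z.1 + ((t ^ 3 : ℝ) : ℂ) * z.2.2.1 0) - π p z.1) with hR
  have vR : Hv s R :=
    (((((vA.comp mA nd.pc nd.pd nd.pr).sub vc).sub (qY.smul vν)).add
      ((vA.holW mA h1).pair (vA.holW mA h2))).sub (((fr.cc.hv qξ mξ).sub vc).sub (qξ.smul vT))).sub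
      (((Hq.const _).mul (Hq.y.add (Hq.h 1))).smul ((fd.cπ.hv qξ mξ).sub vπ))
  have mW : ∀ p, ∀ z ∈ Dom (n + 2) s, Wz V N (t ^ 4) p z ∈ DomW (nb d V p) := fun p z hz =>
    ⟨mA p z hz, norm_tl hz.2.2.1, norm_tl hz.2.2.2.1, norm_tl hz.2.2.2.2⟩
  have bR : ∀ p, ∀ z ∈ Dom (n + 2) s, ‖R p z‖ ≤ K * t ^ 6 := fun p z hz => by
    have e1 : M * ‖((t ^ 4 : ℝ) : ℂ) * z.2.1‖ ^ 2 ≤ M * t ^ 6 := by
      have := (pow_le_pow_left₀ (norm_nonneg _) (bY z hz) 2).trans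
        (show (t ^ 4) ^ 2 ≤ t ^ 6 by rw [← pow_mul]; exact pw (by norm_num))
      gcongr
    have e2 : ‖(f1 p (Wz V N (t ^ 4) p z), f2 p (Wz V N (t ^ 4) p z))‖ ≤ t ^ 6 :=
      max_le (h1.bd p _ (mW p z hz)) (h2.bd p _ (mW p z hz))
    have e3 := fr.cc.tay p hz.1 ((bξ z hz).trans_lt t3)
    rw [← fr.hT p _ (strip_mono s2 hz.1)] at e3
    have e3' : 4 * M / s ^ 2 * ‖((t ^ 3 : ℝ) : ℂ) * z.2.2.1 0‖ ^ 2 ≤ 4 * M / s ^ 2 * t ^ 6 := by
      have := (pow_le_pow_left₀ (norm_nonneg _) (bξ z hz) 2).trans_eq (pow_mul t 3 2).symm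
      gcongr
    have e4 := (fd.cπ.lip p hz.1 ((bξ z hz).trans_lt t3)).trans
      (mul_le_mul_of_nonneg_left (bξ z hz) (by positivity))
    have e5 : ‖((t ^ 4 : ℝ) : ℂ) * (z.2.1 + z.2.2.1 1)‖ ≤ 2 * t ^ 3 := by
      rw [mul_add]
      linarith [norm_add_le (((t ^ 4 : ℝ) : ℂ) * z.2.1) (((t ^ 4 : ℝ) : ℂ) * z.2.2.1 1), bY z hz,
        nrm 4 (bh z hz 1), pw (a := 3) (b := 4) (by norm_num)]
    have e6 := (norm_smul_le _ _).trans (mul_le_mul e5 e4 (norm_nonneg _) (by positivity))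
    refine (norm_sub_le_of_le (norm_sub_le_of_le (norm_add_le_of_le ((mem p z hz).2.trans e1) e2)
      (e3.trans e3')) e6).trans (le_of_eq ?_)
    rw [hK]
    ring
  have bΔ : ∀ (k : ℕ) p, ∀ z ∈ Dom (n + 2) s,
      t ^ k * δ ≤ ‖((t ^ k : ℝ) : ℂ) * det2 (π p z.1) (T p z.1)‖ := fun k p z hz => by
    rw [norm_mul, Complex.norm_real, Real.norm_of_nonneg (by positivity)]
    exact mul_le_mul_of_nonneg_left (fd.det p _ hz.1) (by positivity)
  have nΔ : ∀ (k : ℕ) p, ∀ z ∈ Dom (n + 2) s,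
      ((t ^ k : ℝ) : ℂ) * det2 (π p z.1) (T p z.1) ≠ 0 := fun k p z hz =>
    norm_pos_iff.1 (lt_of_lt_of_le (by positivity) (bΔ k p z hz))
  have q0 := ((vπ.det vR).add (qY.mul (vπ.det vν))).div ((Hq.const _).mul (vπ.det vT)) (nΔ 3)
  have q1 := (vR.det vT).div ((Hq.const _).mul (vπ.det vT)) (nΔ 4)
  have MK : 0 ≤ M * K := by positivity
  have MM : 0 ≤ M * M := by positivity
  have H0 := q0.hol (η := η) fun p z hz => by
    have hz' := strip_mono s2 hz.1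
    have a1 : ‖det2 (π p z.1) (R p z)‖ ≤ 2 * (M * (K * t ^ 4)) := by
      refine (norm_det2 _ _).trans ?_
      have := (bR p z hz).trans (mul_le_mul_of_nonneg_left (pw (a := 4) (by norm_num)) K0.le)
      gcongr
      exact fd.cπ.bd p _ hz'
    have a2 : ‖((t ^ 4 : ℝ) : ℂ) * z.2.1 * det2 (π p z.1) (ν p z.1)‖ ≤ t ^ 4 * (2 * (M * M)) := by
      rw [norm_mul]
      refine mul_le_mul (bY z hz) ((norm_det2 _ _).trans ?_) (norm_nonneg _) (by positivity)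
      gcongr
      exacts [fd.cπ.bd p _ hz', fr.cν.bd p _ hz']
    rw [norm_div, div_le_iff₀ (norm_pos_iff.2 (nΔ 3 p z hz))]
    refine (norm_add_le_of_le a1 a2).trans (le_trans ?_
      (mul_le_mul_of_nonneg_left (bΔ 3 p z hz) hη.le))
    have := mul_le_mul_of_nonneg_left tK (show 0 ≤ t ^ 3 by positivity)
    linarith
  have H1 := q1.hol (η := η) fun p z hz => by
    have a1 : ‖det2 (R p z) (T p z.1)‖ ≤ 2 * (K * t ^ 5 * M) := by
      refine (norm_det2 _ _).trans ?_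
      have := (bR p z hz).trans (mul_le_mul_of_nonneg_left (pw (a := 5) (by norm_num)) K0.le)
      gcongr
      exact fr.cT.bd p _ (strip_mono s2 hz.1)
    rw [norm_div, div_le_iff₀ (norm_pos_iff.2 (nΔ 4 p z hz))]
    refine a1.trans (le_trans ?_ (mul_le_mul_of_nonneg_left (bΔ 4 p z hz) hη.le))
    have := mul_le_mul_of_nonneg_left tK (show 0 ≤ t ^ 4 by positivity)
    have : 0 ≤ M * M * t ^ 5 := by positivity
    linarith
  refine ⟨_, _, fun p z => Fin.cons _ (Fin.cons _ (G p (Wz V N (t ^ 4) p z))),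
    qξ.hol fun p z hz => (bξ z hz).trans ((pw1 (by norm_num)).trans tη), H1,
    Fin.cases H0 (Fin.cases H1 fun j => (vA.holW mA (h3 j)).hol fun p z hz =>
      ((h3 j).bd p _ (mW p z hz)).trans ((pw1 (by norm_num)).trans tη)),
    fun p z hz => ⟨mW p z hz, fun j => rfl, fun him hx => ?_⟩⟩
  have x0 : z.2.2.1 0 = _ / _ := congrFun hx 0
  have x1 : z.2.2.1 1 = _ / _ := congrFun hx 1
  rw [← x1, ← sub_eq_zero]
  rw [eq_div_iff (nΔ 3 p z hz)] at x0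
  rw [eq_div_iff (nΔ 4 p z hz)] at x1
  have sy := fd.sy p z.1.re
  rw [show ((z.1.re : ℝ) : ℂ) = z.1 from Complex.ext rfl him.symm] at sy
  refine Newt.alg (right_ne_zero_of_mul (nΔ 3 p z hz)) ?_ ?_
  · simp only [hR, det2, Wz, Prod.fst_add, Prod.snd_add, Prod.fst_sub, Prod.snd_sub, Prod.smul_fst,
      Prod.smul_snd, smul_eq_mul] at x0 ⊢
    linear_combination -x0
  · simp only [hR, det2, Wz, Prod.fst_add, Prod.snd_add, Prod.fst_sub, Prod.snd_sub, Prod.smul_fst,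
      Prod.smul_snd, smul_eq_mul] at x1 sy ⊢
    linear_combination -x1 + ((t ^ 4 : ℝ) : ℂ) * z.2.1 * sy

end Pool.Agent.MP_1ba41f_an.S2.LB
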