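import Pool.Agent.MP_1ba41f_an.S2.LB.Bas

/-! Invariant circles of all sizes down to zero: the normalised half map. -/

set_option autoImplicit false

noncomputable section
open Set Metric Filter Topology

namespace Pool.Agent.MP_1ba41f_an.S2.LB

namespace Norm

variable {P : Type}

/-- the angle fixed by the symmetry -/
def ts (om : P → ℝ) (p : P) : ℝ := -om p / 2

theorem shift (H mc om : P → ℝ) (V : P → ℂ → C2) (p : P) (z : C2) :
    cur H mc V p (ts om p) + (H p : ℂ) • (z - V p (ts om p)) = ((mc p : ℂ), 0) + (H p : ℂ) • z := by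
  rw [cur, smul_sub, add_assoc, add_sub_cancel]

theorem near {H mc : P → ℝ} {V : P → ℂ → C2} {d0 d1 : ℝ} {p : P} {z : C2} (h0 : 0 ≤ H p)
    (hd : H p * d1 ≤ d0 / 4) (hz : z ∈ nb d1 V p) :
    ∃ θ : ℝ, ‖((mc p : ℂ), 0) + (H p : ℂ) • z - cur H mc V p θ‖ ≤ d0 / 4 := by
  obtain ⟨θ, hθ⟩ := hz
  refine ⟨θ, ?_⟩
  rw [cur, add_sub_add_left_eq_sub, ← smul_sub, norm_smul, Complex.norm_real, Real.norm_of_nonneg h0]
  exact (mul_le_mul_of_nonneg_left hθ.le h0).trans hd

theorem real_lin {x y : C2} (hx : RealC2 x) (hy : RealC2 y) (t : ℝ) : RealC2 (x + (t : ℂ) • y) :=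
  ⟨by simp [hx.1, hy.1], by simp [hx.2, hy.2]⟩

theorem real_sub {x y : C2} (hx : RealC2 x) (hy : RealC2 y) : RealC2 (x - y) :=
  ⟨by simp [hx.1, hy.1], by simp [hx.2, hy.2]⟩

variable [MetricSpace P] {s0 d0 d1 : ℝ} {H mc om : P → ℝ} {V N : P → ℂ → C2} {Pm : P → C2 → C2}

theorem cur_mem (h : LBData s0 d0 H mc om V N Pm) (p : P) (θ : ℝ) :
    cur H mc V p θ ∈ nbh d0 H mc V p := ⟨θ, by simpa using h.d0pos⟩

theorem cur_real (h : LBData s0 d0 H mc om V N Pm) (p : P) (θ : ℝ) : RealC2 (cur H mc V p θ) :=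
  real_lin (x := ((mc p : ℂ), 0)) ⟨by simp, by simp⟩ (h.cv.real p θ) _

theorem pm_at (h : LBData s0 d0 H mc om V N Pm) (p : P) (θ : ℝ) :
    HasFDerivAt (Pm p) (fderiv ℂ (Pm p) (cur H mc V p θ)) (cur H mc V p θ) :=
  ((h.pd p).differentiableAt ((nbh_fibre_open _ _ _ _ _).mem_nhds (cur_mem h p θ))).hasFDerivAt

/-- one component of the normalised map -/
theorem comp [CompactSpace P] (resc : RescStmt) (h : LBData s0 d0 H mc om V N Pm) (hd1 : 0 < d1)
    (hd : ∀ p, H p * d1 ≤ d0 / 4) (l : C2 →L[ℂ] ℂ) (hl : ∀ x, ‖l x‖ ≤ ‖x‖)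
    (hr : ∀ x, RealC2 x → (l x).im = 0) :
    ∃ Q : P → C2 → ℂ, ContinuousOn (fun q : P × C2 => Q q.1 q.2) {q | q.2 ∈ nb d1 V q.1} ∧
      (∀ p, DifferentiableOn ℂ (Q p) (nb d1 V p)) ∧
      (∀ p z, l (Pm p (((mc p : ℂ), 0) + (H p : ℂ) • z) - Pm p (cur H mc V p (ts om p))) =
        H p * Q p z) ∧
      (∀ p z, H p = 0 →
        Q p z = l (fderiv ℂ (Pm p) (cur H mc V p (ts om p)) (z - V p (ts om p)))) ∧
      ∀ p, ∀ z ∈ nb d1 V p, RealC2 z → (Q p z).im = 0 := by
  have d0p := h.d0pos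
  obtain ⟨M, hM, hV⟩ := h.cv.cv h.s0pos
  obtain ⟨M0, -, hM0⟩ := tube_bd (γ := fun p θ => cur H mc V p θ)
    (cur_cont h.hc h.mcc h.cv h.s0pos) (cur_per H mc h.cv h.s0pos) (half_lt_self d0p) h.pc
  have hts : Continuous fun p => (p, ts om p) := by
    have := h.omc
    unfold ts
    fun_prop
  have ha : Continuous fun p => cur H mc V p (ts om p) :=
    (cur_cont h.hc h.mcc h.cv h.s0pos).comp hts
  have hb : Continuous fun p => V p (ts om p) := (crv_cont h.cv h.s0pos).comp hts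
  have hPa : Continuous fun p => Pm p (cur H mc V p (ts om p)) :=
    h.pc.comp_continuous (f := fun p => (p, cur H mc V p (ts om p))) (continuous_id.prodMk ha)
      fun p => cur_mem h p _
  have m1 : ∀ p (x : C2), ‖x‖ < d0 / 2 → cur H mc V p (ts om p) + x ∈ nbh d0 H mc V p :=
    fun p x hx => ⟨ts om p, by rw [add_sub_cancel_left]; linarith⟩
  have m2 : ∀ p, ∀ z ∈ nb d1 V p, ((mc p : ℂ), 0) + (H p : ℂ) • z ∈ nbh d0 H mc V p :=
    fun p z hz => let ⟨θ, e⟩ := near (mc := mc) (h.h0 p) (hd p) hz; ⟨θ, by linarith⟩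
  have bd : ∀ p (θ : ℝ) x, ‖x - cur H mc V p θ‖ ≤ d0 / 2 →
      ‖l (Pm p x - Pm p (cur H mc V p (ts om p)))‖ ≤ M0 + M0 := fun p θ x hx =>
    (hl _).trans ((norm_sub_le _ _).trans (add_le_add (hM0 p θ x hx)
      (hM0 p (ts om p) _ (by rw [sub_self, norm_zero]; linarith))))
  have hR : ∀ p, ∀ z ∈ nb d1 V p, ‖z - V p (ts om p)‖ ≤ d1 + 2 * M := fun p z ⟨θ, hθ⟩ => by
    have e1 := hV.bd p _ (real_mem_strip (half_pos h.s0pos) θ)
    have e2 := hV.bd p _ (real_mem_strip (half_pos h.s0pos) (ts om p))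
    have e3 := norm_sub_le_norm_sub_add_norm_sub z (V p θ) (V p (ts om p))
    have e4 := norm_sub_le (V p θ) (V p (ts om p))
    linarith
  have hH : Continuous fun q : P × C2 => (H q.1 : ℂ) := by
    have := h.hc
    fun_prop
  have hmc : Continuous fun q : P × C2 => (((mc q.1 : ℂ), 0) : C2) := by
    have := h.mcc
    fun_prop
  obtain ⟨Q, q1, q2, -, q4, q5, q6⟩ := resc P C2 H (fun p => V p (ts om p)) (nb d1 V)
    (fun p x => l (Pm p (cur H mc V p (ts om p) + x) - Pm p (cur H mc V p (ts om p))))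
    (d0 / 2) (d1 + 2 * M) 1 (M0 + M0) h.hc h.h0 hb (half_pos d0p) (by positivity) one_pos hR
    (l.continuous.comp_continuousOn (ContinuousOn.sub
      (h.pc.comp (f := fun q : P × C2 => (q.1, cur H mc V q.1 (ts om q.1) + q.2))
        (continuous_fst.prodMk ((ha.comp continuous_fst).add continuous_snd)).continuousOn
        fun q hq => m1 _ _ (mem_ball_zero_iff.1 hq.2))
      (hPa.comp continuous_fst).continuousOn))
    (fun p => l.differentiable.comp_differentiableOn (DifferentiableOn.sub_const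
      ((h.pd p).comp (f := fun x => cur H mc V p (ts om p) + x) (by fun_prop)
        fun x hx => m1 _ _ (mem_ball_zero_iff.1 hx)) _))
    (fun p x hx => bd p (ts om p) _ (by rw [add_sub_cancel_left]; exact (mem_ball_zero_iff.1 hx).le))
    (fun p _ => by simp)
    (by
      simp only [shift]
      exact l.continuous.comp_continuousOn (ContinuousOn.sub
        (h.pc.comp (f := fun q : P × C2 => (q.1, ((mc q.1 : ℂ), 0) + (H q.1 : ℂ) • q.2))
          (continuous_fst.prodMk (hmc.add (hH.smul continuous_snd))).continuousOn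
          fun q hq => m2 _ _ hq)
        (hPa.comp continuous_fst).continuousOn))
    (fun p => by
      simp only [shift]
      exact l.differentiable.comp_differentiableOn (DifferentiableOn.sub_const
        ((h.pd p).comp (f := fun z => ((mc p : ℂ), 0) + (H p : ℂ) • z) (by fun_prop)
          fun z hz => m2 _ _ hz) _))
    (fun p z hz => by
      obtain ⟨θ, e⟩ := near (mc := mc) (h.h0 p) (hd p) hz
      simp only [shift]
      exact bd p θ _ (by linarith))
  refine ⟨Q, q1, q2, fun p z => by rw [← q4, shift], fun p z h0 => ?_, fun p z hz hzr => ?_⟩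
  · have e1 : HasFDerivAt (fun x => Pm p (cur H mc V p (ts om p) + x))
        (fderiv ℂ (Pm p) (cur H mc V p (ts om p))) 0 :=
      (hasFDerivAt_comp_add_left _).2 (by rw [add_zero]; exact pm_at h p _)
    have e2 := l.hasFDerivAt.comp 0 (e1.sub_const (Pm p (cur H mc V p (ts om p))))
    rw [q5 p z h0]
    exact congrArg (fun A : C2 →L[ℂ] ℂ => A (z - V p (ts om p))) e2.fderiv
  · refine q6 p z fun t ht => hr _ (real_sub (h.pr p _ ?_
      (real_lin (cur_real h p _) (real_sub hzr (h.cv.real p _)) t))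
      (h.pr p _ (cur_mem h p _) (cur_real h p _)))
    rcases ht with rfl | ht
    · rw [shift]
      exact m2 p z hz
    · refine m1 p _ (lt_of_le_of_lt ?_ ht)
      rw [norm_smul, Complex.norm_real, Real.norm_eq_abs]
      exact mul_le_mul_of_nonneg_left (hR p z hz) (abs_nonneg t)

/-- the reflection as a linear map -/
def GmL : C2 →L[ℂ] C2 := (ContinuousLinearMap.fst ℂ ℂ ℂ).prod (-ContinuousLinearMap.snd ℂ ℂ ℂ)

/-- differentiation of the symmetry along the reals -/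
theorem dsym {s0 w : ℝ} {V : ℂ → C2} (hs : 0 < s0) (hV : DifferentiableOn ℂ V (strip s0))
    (A : C2 →L[ℂ] C2) (c : C2) (h : ∀ t : ℝ, A (V (-t - w : ℝ) - c) = Gm (A (V t - c))) (θ : ℝ) :
    A (deriv V (-θ - w : ℝ)) = -Gm (A (deriv V θ)) := by
  have hv : ∀ t : ℝ, HasDerivAt V (deriv V t) t := fun t =>
    (hV.differentiableAt ((strip_open s0).mem_nhds (real_mem_strip hs t))).hasDerivAt
  have i1 : HasDerivAt (fun t : ℝ => ((-t - w : ℝ) : ℂ)) ((-1 : ℝ) : ℂ) θ :=
    ((hasDerivAt_neg θ).sub_const w).ofReal_comp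
  have i2 : HasDerivAt (fun t : ℝ => (t : ℂ)) ((1 : ℝ) : ℂ) θ := (hasDerivAt_id θ).ofReal_comp
  have e1 := (A.restrictScalars ℝ).hasFDerivAt.comp_hasDerivAt θ
    (((hv (-θ - w)).scomp θ i1).sub_const c)
  have e2 := ((GmL.comp A).restrictScalars ℝ).hasFDerivAt.comp_hasDerivAt θ
    (((hv θ).scomp θ i2).sub_const c)
  have e3 := e1.unique (e2.congr_of_eventuallyEq (Eventually.of_forall h))
  have e4 : -A (deriv V (-θ - w : ℝ)) = GmL (A (deriv V θ)) := by simpa using e3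
  exact neg_eq_iff_eq_neg.1 e4

end Norm

open LB.Norm in
theorem norm (resc : RescStmt) : NormStmt := by
  intro P _ _ s0 d0 H mc om V N Pm h
  have d0p := h.d0pos
  obtain ⟨Hm, hHm⟩ := isCompact_univ.exists_bound_of_continuousOn h.hc.continuousOn
  have hm : ∀ p, H p ≤ |Hm| + 1 := fun p =>
    (le_abs_self _).trans ((hHm p trivial).trans ((le_abs_self _).trans (by linarith)))
  have hd1 : 0 < d0 / (4 * (|Hm| + 1)) := by positivity
  have hd : ∀ p, H p * (d0 / (4 * (|Hm| + 1))) ≤ d0 / 4 := fun p =>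
    (mul_le_mul_of_nonneg_right (hm p) hd1.le).trans (le_of_eq (by field_simp))
  generalize d0 / (4 * (|Hm| + 1)) = d1 at hd1 hd
  obtain ⟨Q1, a1, a2, a3, a4, a5⟩ := comp resc h hd1 hd (ContinuousLinearMap.fst ℂ ℂ ℂ)
    norm_fst_le fun _ e => e.1
  obtain ⟨Q2, b1, b2, b3, b4, b5⟩ := comp resc h hd1 hd (ContinuousLinearMap.snd ℂ ℂ ℂ)
    norm_snd_le fun _ e => e.2
  obtain ⟨Pn, hPn⟩ : ∃ Pn : P → C2 → C2, Pn = fun p z => (Q1 p z, Q2 p z) := ⟨_, rfl⟩
  have ctr0 : ∀ p, Pm p (cur H mc V p (ts om p)) =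
      ((((Pm p (cur H mc V p (ts om p))).1.re : ℝ) : ℂ), 0) := fun p => by
    have e1 := congrArg Prod.snd (h.inv p (ts om p))
    rw [show -ts om p - om p = ts om p by unfold ts; ring] at e1
    refine Prod.ext (Complex.ext rfl ?_) (self_eq_neg.1 e1)
    exact (h.pr p _ (cur_mem h p _) (cur_real h p _)).1.trans (Complex.ofReal_im _).symm
  have rel : ∀ p v, Pm p (((mc p : ℂ), 0) + (H p : ℂ) • v) =
      ((((Pm p (cur H mc V p (ts om p))).1.re : ℝ) : ℂ), 0) + (H p : ℂ) • Pn p v := fun p v => by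
    rw [← ctr0 p, ← sub_eq_iff_eq_add', hPn]
    exact Prod.ext (a3 p v) (b3 p v)
  have aff : ∀ p, H p = 0 → ∀ θ : ℝ, Pn p =
      fun z => fderiv ℂ (Pm p) (cur H mc V p θ) (z - V p (ts om p)) := fun p h0 θ => by
    rw [show cur H mc V p θ = cur H mc V p (ts om p) by simp [cur, h0], hPn]
    exact funext fun z => Prod.ext (a4 p z h0) (b4 p z h0)
  have pc : ContinuousOn (fun q : P × C2 => Pn q.1 q.2) {q | q.2 ∈ nb d1 V q.1} := by
    rw [hPn]
    exact a1.prodMk b1
  have vm : ∀ p (θ : ℝ), V p θ ∈ nb d1 V p := fun p θ => ⟨θ, by simpa using hd1⟩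
  have cn : ∀ φ : P → ℝ, Continuous φ → Continuous fun p => Pn p (V p (φ p)) := fun φ hφ =>
    pc.comp_continuous (f := fun p => (p, V p (φ p)))
      (continuous_id.prodMk ((crv_cont h.cv h.s0pos).comp (continuous_id.prodMk hφ)))
      fun p => vm p _
  have inv : ∀ p (θ : ℝ), Pn p (V p (-θ - om p : ℝ)) = Gm (Pn p (V p θ)) := fun p θ => by
    refine congrFun (Continuous.ext_on h.dense (cn (fun p => -θ - om p)
      (continuous_const.sub h.omc)) (continuous_Gm.comp (cn (fun _ => θ) continuous_const))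
      fun p hp => ?_) p
    have e := h.inv p θ
    have hp' : (H p : ℂ) ≠ 0 := Complex.ofReal_ne_zero.2 (ne_of_gt hp)
    rw [cur, cur, rel, rel] at e
    have e1 := congrArg Prod.fst e
    have e2 := congrArg Prod.snd e
    simp only [Gm, Prod.fst_add, Prod.snd_add, Prod.smul_fst, Prod.smul_snd, smul_eq_mul,
      zero_add, add_right_inj, ← mul_neg] at e1 e2
    exact Prod.ext (mul_left_cancel₀ hp' e1) (mul_left_cancel₀ hp' e2)
  have key : ∀ p (θ : ℝ), fderiv ℂ (Pn p) (V p θ) = fderiv ℂ (Pm p) (cur H mc V p θ) :=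
    fun p θ => by
    refine HasFDerivAt.fderiv ?_
    by_cases h0 : H p = 0
    · rw [aff p h0 θ]
      exact ((fderiv ℂ (Pm p) (cur H mc V p θ)).hasFDerivAt.comp (V p θ)
        ((hasFDerivAt_id (V p θ)).sub_const (V p (ts om p)))).congr_fderiv
          (ContinuousLinearMap.comp_id _)
    have hp' : (H p : ℂ) ≠ 0 := Complex.ofReal_ne_zero.2 h0
    have e1 := ((HasFDerivAt.comp (V p θ) (f := fun v => ((mc p : ℂ), 0) + (H p : ℂ) • v)
      (pm_at h p θ) (((hasFDerivAt_id (V p θ)).const_smul (H p : ℂ)).const_add _)).sub_const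
        ((((Pm p (cur H mc V p (ts om p))).1.re : ℝ) : ℂ), 0)).const_smul (H p : ℂ)⁻¹
    refine (e1.congr_fderiv ?_).congr_of_eventuallyEq (Eventually.of_forall fun v => ?_)
    · exact ContinuousLinearMap.ext fun v =>
        (congrArg _ (map_smul (fderiv ℂ (Pm p) (cur H mc V p θ)) (H p : ℂ) v)).trans
          (inv_smul_smul₀ hp' _)
    · simp only [Function.comp, Pi.smul_apply, rel, add_sub_cancel_left, inv_smul_smul₀ hp']
  refine ⟨d1, Pn, fun p => (Pm p (cur H mc V p (ts om p))).1.re, hd, ⟨h.s0pos, hd1, h.omc, h.cv,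
    h.cn, pc, fun p => ?_, fun p x hx e => ?_, inv, fun p θ => ?_, h.dense.mono fun p hp θ => ?_⟩,
    fun p v _ => rel p v, fun p h0 θ => ?_⟩
  · rw [hPn]
    exact (a2 p).prodMk (b2 p)
  · rw [hPn]
    exact ⟨a5 p x hx e, b5 p x hx e⟩
  · rw [key]
    exact h.trv p θ
  · rw [key, key]
    exact h.sym p θ hp
  · refine dsym h.s0pos (h.cv.diff p) _ (V p (ts om p)) (fun t => ?_) θ
    have e := inv p t
    rwa [aff p h0 0] at e

end Pool.Agent.MP_1ba41f_an.S2.LB
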