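import Pool.Agent.MP_1ba41f_an.S2.LB.Bas

/-! Invariant circles of all sizes down to zero: reduction to normalised data. -/

set_option autoImplicit false

open Set Metric Filter Topology

namespace Pool.Agent.MP_1ba41f_an.S2.LB

namespace Red

variable {P : Type} {n : ℕ}

section Top
variable [TopologicalSpace P] {O : P → Set C2} {μ μ' : ℝ} {F F' : P → Ws n → ℂ}

theorem add (h : HolW O μ F) (h' : HolW O μ' F') : HolW O (μ + μ') fun p z => F p z + F' p z :=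
  ⟨h.cont.add h'.cont, fun p => (h.diff p).add (h'.diff p),
    fun p z hz => (norm_add_le _ _).trans (add_le_add (h.bd p z hz) (h'.bd p z hz)),
    fun p _ _ _ _ hz => by rw [Complex.add_im, h.real p _ _ _ _ hz, h'.real p _ _ _ _ hz, add_zero]⟩

theorem scal (h : HolW O μ F) {c : ℝ} (hc : 0 ≤ c) : HolW O (c * μ) fun p z => c * F p z :=
  ⟨continuousOn_const.mul h.cont, fun p => (h.diff p).const_mul _, fun p z hz => by
    rw [norm_mul, Complex.norm_real, Real.norm_of_nonneg hc]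
    exact mul_le_mul_of_nonneg_left (h.bd p z hz) hc,
    fun p _ _ _ _ hz => by rw [Complex.im_ofReal_mul, h.real p _ _ _ _ hz, mul_zero]⟩

theorem cen (h : HolW O μ F) {β : P → Ws n} (hβ : Continuous β) (hm : ∀ p, β p ∈ DomW (O p))
    (hr : ∀ p, (F p (β p)).im = 0) : HolW O (μ + μ) fun p z => F p z - F p (β p) :=
  ⟨h.cont.sub (h.cont.comp_continuous (f := fun q : P × Ws n => (q.1, β q.1)) (by fun_prop)
      fun q => hm q.1).continuousOn, fun p => (h.diff p).sub_const _,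
    fun p z hz => (norm_sub_le _ _).trans (add_le_add (h.bd p z hz) (h.bd p _ (hm p))),
    fun p _ _ _ _ hz => by rw [Complex.sub_im, h.real p _ _ _ _ hz, hr, sub_zero]⟩

theorem plane {Φ : P → C2 → C2} (hc : ContinuousOn (fun q : P × C2 => Φ q.1 q.2) {q | q.2 ∈ O q.1})
    (hd : ∀ p, DifferentiableOn ℂ (Φ p) (O p)) (hb : ∀ p, ∀ x ∈ O p, ‖Φ p x‖ ≤ μ)
    (hr : ∀ p, ∀ x ∈ O p, RealC2 x → RealC2 (Φ p x)) :
    (HolW O μ fun p (z : Ws n) => (Φ p z.1).1) ∧ HolW O μ fun p (z : Ws n) => (Φ p z.1).2 := by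
  have c := hc.comp (s := {q : P × Ws n | q.2 ∈ DomW (O q.1)})
    (f := fun q : P × Ws n => (q.1, q.2.1)) (by fun_prop) fun q hq => hq.1
  have d := fun p => (hd p).comp (s := DomW (n := n) (O p)) differentiableOn_fst fun z hz => hz.1
  have r := fun p x h0 h1 h2 (hz : rw3 (n := n) x h0 h1 h2 ∈ DomW (O p)) =>
    hr p _ hz.1 ⟨Complex.ofReal_im _, Complex.ofReal_im _⟩
  exact ⟨⟨c.fst, fun p => (d p).fst, fun p z hz => (norm_fst_le _).trans (hb p _ hz.1),
    fun p x h0 h1 h2 hz => (r p x h0 h1 h2 hz).1⟩, c.snd, fun p => (d p).snd,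
    fun p z hz => (norm_snd_le _).trans (hb p _ hz.1), fun p x h0 h1 h2 hz => (r p x h0 h1 h2 hz).2⟩

end Top

theorem norm_sh (a : ℝ) : ‖(((a : ℂ), 0) : C2)‖ = |a| := by simp [Prod.norm_def]

theorem norm_re (v : Fin n → ℝ) : ‖(fun j => (v j : ℂ) : Hh n)‖ ≤ ‖v‖ :=
  (pi_norm_le_iff_of_nonneg (norm_nonneg _)).2 fun j => by
    rw [Complex.norm_real]; exact norm_le_pi_norm v j

variable [MetricSpace P] {s0 d0 : ℝ} {H mc om : P → ℝ} {V N : P → ℂ → C2} {Pm : P → C2 → C2}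

theorem shift [CompactSpace P] (h : LBData s0 d0 H mc om V N Pm) : ∃ L : ℝ, 0 < L ∧
    ∀ (D : P → ℝ) (δ : ℝ), Continuous D → (∀ p, |D p| ≤ δ) → δ ≤ d0 / 8 →
      (HolW (nbh (d0 / 2) H mc V) (L * δ) fun p (z : Ws n) =>
        (Pm p z.1 - Pm p (z.1 - ((D p : ℂ), 0))).1) ∧
      HolW (nbh (d0 / 2) H mc V) (L * δ) fun p (z : Ws n) =>
        (Pm p z.1 - Pm p (z.1 - ((D p : ℂ), 0))).2 := by
  have d0p := h.d0pos
  obtain ⟨M, M0, hM⟩ := tube_bd (γ := fun p θ => cur H mc V p θ) (cur_cont h.hc h.mcc h.cv h.s0pos)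
    (cur_per H mc h.cv h.s0pos) (show 3 * d0 / 4 < d0 by linarith) h.pc
  refine ⟨2 * M / (d0 / 4), by positivity, fun D δ hD hδ hd => ?_⟩
  have tri : ∀ {x y z : C2}, ‖x - z‖ < d0 / 2 → y ∈ ball x (d0 / 4) → ‖y - z‖ < 3 * d0 / 4 :=
    fun {x y z} a b => by linarith [norm_sub_le_norm_sub_add_norm_sub y x z, mem_ball_iff_norm.1 b]
  have sub : ∀ p, ∀ x ∈ nbh (d0 / 2) H mc V p, ball x (d0 / 4) ⊆ nbh d0 H mc V p :=
    fun p x ⟨θ, hθ⟩ y hy => ⟨θ, by linarith [tri hθ hy]⟩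
  have e : ∀ p (x : C2), ‖x - ((D p : ℂ), 0) - x‖ = |D p| := fun p x => by
    rw [sub_sub_cancel_left, norm_neg, norm_sh]
  have mb : ∀ p (x : C2), x - ((D p : ℂ), 0) ∈ ball x (d0 / 4) := fun p x => by
    rw [mem_ball_iff_norm, e]; linarith [hδ p]
  have mo := nbh_mono (show d0 / 2 ≤ d0 by linarith) H mc V
  refine plane (Φ := fun p x => Pm p x - Pm p (x - ((D p : ℂ), 0)))
    ((h.pc.mono fun q hq => mo _ hq).sub (h.pc.comp
      (f := fun q : P × C2 => (q.1, q.2 - ((D q.1 : ℂ), 0))) (by fun_prop)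
      fun q hq => sub _ _ hq (mb _ _)))
    (fun p => ((h.pd p).mono (mo p)).sub ((h.pd p).comp (by fun_prop)
      fun x hx => sub _ _ hx (mb _ _))) (fun p x hx => ?_) fun p x hx hr => ?_
  · obtain ⟨θ, hθ⟩ := id hx
    have := (cauS C2 C2 (Pm p) x (d0 / 4) M (by positivity) ((h.pd p).mono (sub p x hx))
      fun y hy => hM p θ y (tri hθ hy).le).2.1 _ (mb p x)
    rw [norm_sub_rev, e] at this
    exact this.trans (mul_le_mul_of_nonneg_left (hδ p) (by positivity))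
  · have a := h.pr p x (mo p hx) hr
    have b := h.pr p _ (sub p x hx (mb p x)) ⟨by simpa using hr.1, by simpa using hr.2⟩
    exact ⟨by simp [a.1, b.1], by simp [a.2, b.2]⟩

theorem base_real (h : LBData s0 d0 H mc om V N Pm) (D1 : P → ℝ) (Dh : P → Fin n → ℝ) (p : P) :
    ∃ x, base H mc V D1 Dh p = rw3 x (Dh p) (Dh p) (Dh p) := by
  have := h.cv.real p 0
  rw [Complex.ofReal_zero] at this
  refine ⟨((base H mc V D1 Dh p).1.1.re, (base H mc V D1 Dh p).1.2.re), Prod.ext ?_ rfl⟩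
  refine Prod.ext (Complex.ext rfl ?_) (Complex.ext rfl ?_) <;>
    simp [base, cur, rw3, r2c, this.1, this.2]

end Red

open Red in
theorem red (norm : NormStmt) (fixp : FixpStmt) (liftS : LiftStmt) : RedStmt := by
  intro P _ _ s0 d0 H mc om V N Pm h
  have d0p := h.d0pos
  obtain ⟨d1, Pn, b, n1, n2, n3, n4⟩ := norm P s0 d0 H mc om V N Pm h
  refine ⟨d1, Pn, n2, fun n => ?_⟩
  obtain ⟨C, μ0, H1, C0, μp, H1p, hF⟩ :=
    fixp P s0 d0 H mc om V N Pm h (fun p e => ctr h p e (n4 p e)) n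
  obtain ⟨Hm, hHm⟩ := isCompact_univ.exists_bound_of_continuousOn h.hc.continuousOn
  have a0 := abs_nonneg Hm
  obtain ⟨c0, c0p, c1, c2⟩ : ∃ c0 : ℝ, 0 < c0 ∧ c0 ≤ 1 ∧ ∀ p, c0 * H p ≤ 1 / 4 := by
    refine ⟨1 / (4 * (|Hm| + 1)), by positivity, ?_, fun p => ?_⟩
    · rw [div_le_one (by positivity)]; linarith
    · rw [div_mul_eq_mul_div, div_le_div_iff₀ (by positivity) (by norm_num)]
      linarith [le_abs_self Hm, hHm p trivial, Real.le_norm_self (H p)]
  obtain ⟨K, K0, hK⟩ := liftS P s0 d0 d1 c0 H1 H mc V n h.s0pos d0p n2.dpos c0p c1 H1p h.hc h.h0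
    h.mcc h.cv n1 c2
  obtain ⟨L, L0, hL⟩ := shift (n := n) h
  set B : ℝ := 2 * (L * C + 1) + 2 * c0⁻¹ with hB
  refine ⟨C + K * B, min μ0 (min (d0 / 8) (1 / 4) / C), c0, by positivity, by positivity, c0p, c2,
    fun μ m0 m1 f1 f2 G F1 F2 FG => ?_⟩
  obtain ⟨D1, Dh, cD, cDh, bD, e1, e2⟩ := hF μ m0 (m1.trans (min_le_left _ _)) f2 G F2 FG
  have m2 := (le_div_iff₀' C0).1 (m1.trans (min_le_right _ _))
  obtain ⟨m3, m4⟩ := le_min_iff.1 m2
  obtain ⟨l1, l2⟩ := hK D1 Dh cD cDh fun p => ⟨(bD p).1.trans m3, (bD p).2.trans m4⟩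
  obtain ⟨A1, A2⟩ := hL D1 (C * μ) cD (fun p => (bD p).1) m3
  have mo := nbh_mono (show d0 / 2 ≤ d0 by linarith) H mc V
  have cb : Continuous (base H mc V D1 Dh) := by
    have := (cur_cont h.hc h.mcc h.cv h.s0pos).comp (f := fun p : P => (p, (0 : ℝ))) (by fun_prop)
    have : Continuous fun p => cur H mc V p 0 := by simpa [Function.comp_def] using this
    unfold base
    fun_prop
  have mb : ∀ p, base H mc V D1 Dh p ∈ DomW (nbh (d0 / 2) H mc V p) := fun p => by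
    have := (norm_re (Dh p)).trans_lt (show ‖Dh p‖ < 1 by linarith [(bD p).2])
    refine ⟨⟨0, ?_⟩, this, this, this⟩
    rw [base, Complex.ofReal_zero, add_sub_cancel_left, norm_sh]
    linarith [(bD p).1]
  have re : ∀ {m : ℝ} {F : P → Ws n → ℂ}, HolW (nbh (d0 / 2) H mc V) m F →
      ∀ p, (F p (base H mc V D1 Dh p)).im = 0 := fun hF p => by
    obtain ⟨x, e⟩ := base_real h D1 Dh p
    rw [e]
    exact hF.real p _ _ _ _ (e ▸ mb p)
  have p1 : 0 ≤ L * (C * μ) + μ := by positivity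
  have p2 : 0 ≤ c0⁻¹ * (μ + μ) := by positivity
  have eB : B * μ = L * (C * μ) + μ + (L * (C * μ) + μ) + c0⁻¹ * (μ + μ) := by rw [hB]; ring
  have S1 := add A1 (F1.sub mo)
  obtain ⟨g1, G1, q1⟩ := l2 (B * μ) _ ((cen S1 cb mb (re S1)).mono (by linarith))
    fun p _ => sub_self _
  obtain ⟨g2, G2, q2⟩ := l2 (B * μ) _ ((add A2 (F2.sub mo)).mono (by linarith)) fun p hp => by
    simpa only [base, add_sub_cancel_right] using e2 p hp
  choose Gn G3 q3 using fun j => l2 (B * μ) _ ((scal (cen ((FG j).sub mo) cb mb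
    (re ((FG j).sub mo))) (inv_nonneg.2 c0p.le)).mono (by linarith)) fun p _ => by
      rw [sub_self, mul_zero]
  have b1 : C * μ ≤ (C + K * B) * μ := by nlinarith [mul_pos (mul_pos K0 (by positivity : 0 < B)) m0]
  have b2 : K * (B * μ) ≤ (C + K * B) * μ := by nlinarith [mul_pos C0 m0]
  refine ⟨D1, fun p => b p + ((Pm p (base H mc V D1 Dh p).1 -
      Pm p ((base H mc V D1 Dh p).1 - ((D1 p : ℂ), 0))).1 + f1 p (base H mc V D1 Dh p)).re, Dh,
    g1, g2, fun p z j => Gn j p z, cD, cDh, fun p => ⟨(bD p).1.trans b1, (bD p).2.trans b1⟩,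
    G1.mono b2, G2.mono b2, fun j => (G3 j).mono b2, fun p z hz =>
    ⟨⟨mo p (l1 p z hz).1, (l1 p z hz).2⟩, ?_, fun j => ?_⟩⟩
  · have e : (lift H mc D1 Dh c0 p z).1 - ((D1 p : ℂ), 0) = ((mc p : ℂ), 0) + (H p : ℂ) • z.1 := by
      ext <;> simp [lift]
      ring
    have r1 := q1 p z
    have r2 := q2 p z
    have r3 := (Complex.re_add_im _).symm.trans (by rw [re S1 p, Complex.ofReal_zero, zero_mul,
      add_zero] : _ = _)
    rw [e, n3 p _ hz.1] at r1 r2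
    rw [r3] at r1
    ext
    · simp only [Prod.fst_add, Prod.fst_sub, Prod.smul_fst, smul_eq_mul, Complex.ofReal_add]
        at r1 ⊢
      linear_combination r1
    · simp only [Prod.snd_add, Prod.snd_sub, Prod.smul_snd, smul_eq_mul] at r2 ⊢
      linear_combination r2
  · have r := q3 j p z
    have : (c0 : ℂ) ≠ 0 := Complex.ofReal_ne_zero.2 c0p.ne'
    rw [e1, Complex.ofReal_inv, inv_mul_eq_iff_eq_mul₀ this] at r
    linear_combination r

end Pool.Agent.MP_1ba41f_an.S2.LB
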