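import Pool.Agent.MP_1ba41f_an.S2.LB.Spec
import Pool.Agent.MP_1ba41f_an.S2.OD.Cau

/-! Invariant circles of all sizes down to zero: division by the size. -/

set_option autoImplicit false

noncomputable section
open Set Metric Filter Topology

namespace Pool.Agent.MP_1ba41f_an.S2.LB

namespace Resc

variable {E : Type} [NormedAddCommGroup E] [NormedSpace ℂ E] {f : E → ℂ} {ρ R M h : ℝ} {w : E}

/-- the difference quotient -/
def qt (f : E → ℂ) (h : ℝ) (w : E) : ℂ :=
  if h = 0 then fderiv ℂ f 0 w else ((h⁻¹ : ℝ) : ℂ) * f ((h : ℂ) • w)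

theorem norm_qt (h0 : 0 < h) : ‖qt f h w‖ = h⁻¹ * ‖f ((h : ℂ) • w)‖ := by
  rw [qt, if_neg h0.ne', norm_mul, Complex.norm_real, Real.norm_of_nonneg (by positivity)]

theorem norm_sm (h0 : 0 ≤ h) (hw : ‖w‖ ≤ R) : ‖(h : ℂ) • w‖ ≤ h * R := by
  rw [norm_smul, Complex.norm_real, Real.norm_of_nonneg h0]
  exact mul_le_mul_of_nonneg_left hw h0

theorem small (hρ : 0 < ρ) (hd : DifferentiableOn ℂ f (ball 0 ρ)) (hb : ∀ x ∈ ball 0 ρ, ‖f x‖ ≤ M)
    (f0 : f 0 = 0) (h0 : 0 ≤ h) (hw : ‖w‖ ≤ R) (hs : h * R < ρ) :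
    ‖qt f h w‖ ≤ 2 * M / ρ * R ∧ ‖qt f h w - fderiv ℂ f 0 w‖ ≤ 4 * M / ρ ^ 2 * R ^ 2 * h := by
  obtain ⟨c1, c2, c3, -⟩ := cauS E ℂ f 0 ρ M hρ hd hb
  have hM : 0 ≤ M := (norm_nonneg _).trans (hb 0 (mem_ball_self hρ))
  rcases h0.eq_or_lt with rfl | h1
  · rw [qt, if_pos rfl, sub_self, norm_zero, mul_zero]
    exact ⟨(ContinuousLinearMap.le_opNorm _ _).trans
      (mul_le_mul c1 hw (norm_nonneg _) (by positivity)), le_rfl⟩
  have hx := norm_sm h0 hw
  have hm : (h : ℂ) • w ∈ ball (0 : E) ρ := mem_ball_zero_iff.2 (hx.trans_lt hs)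
  have d2 := c2 _ hm
  have d3 := c3 _ hm
  rw [f0, sub_zero, sub_zero] at d2 d3
  constructor
  · rw [norm_qt h1, inv_mul_le_iff₀ h1]
    refine d2.trans ((mul_le_mul_of_nonneg_left hx (by positivity)).trans (le_of_eq (by ring)))
  · have e : qt f h w - fderiv ℂ f 0 w =
        ((h⁻¹ : ℝ) : ℂ) * (f ((h : ℂ) • w) - fderiv ℂ f 0 ((h : ℂ) • w)) := by
      have : (h : ℂ) ≠ 0 := Complex.ofReal_ne_zero.2 h1.ne'
      rw [qt, if_neg h1.ne', map_smul, smul_eq_mul]
      push_cast
      field_simp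
    rw [e, norm_mul, Complex.norm_real, Real.norm_of_nonneg (by positivity), inv_mul_le_iff₀ h1]
    refine d3.trans ((mul_le_mul_of_nonneg_left (pow_le_pow_left₀ (norm_nonneg _) hx 2)
      (by positivity)).trans (le_of_eq (by ring)))

theorem real0 (hρ : 0 < ρ) (hd : DifferentiableOn ℂ f (ball 0 ρ))
    (hr : ∀ t : ℝ, |t| * R < ρ → (f ((t : ℂ) • w)).im = 0) : (fderiv ℂ f 0 w).im = 0 := by
  have h1 : HasFDerivAt f (fderiv ℂ f 0) ((fun t : ℂ => t • w) ((0 : ℝ) : ℂ)) := by
    simpa using (hd.differentiableAt (ball_mem_nhds 0 hρ)).hasFDerivAt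
  have h2 := (h1.comp_hasDerivAt _ ((hasDerivAt_id' ((0 : ℝ) : ℂ)).smul_const w)).comp_ofReal
  have h3 := Complex.imCLM.hasFDerivAt.comp_hasDerivAt _ h2
  have h4 : ∀ᶠ t : ℝ in 𝓝 0, |t| * R < ρ :=
    (by fun_prop : Continuous fun t : ℝ => |t| * R).continuousAt.eventually_lt continuousAt_const
      (by simpa using hρ)
  have h5 := (hasDerivAt_const (0 : ℝ) (0 : ℝ)).congr_of_eventuallyEq (h4.mono fun t ht => hr t ht)
  simpa using h3.unique h5

end Resc

open Resc in
theorem resc (dc : DcStmt) : RescStmt := by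
  intro P E _ _ _ H b S Φ ρ R H1 M hH H0 hb hρ hR hH1 hS hc hd hM h0 hc' hd' hM'
  have hL : Continuous fun q : P × E => fderiv ℂ (Φ q.1) 0 (q.2 - b q.1) :=
    (dc P E ℂ _ Φ (isOpen_univ.prod isOpen_ball) hc fun p =>
      (hd p).mono fun _ h => h.2).comp_continuous
      (f := fun q : P × E => ((q.1, 0), q.2 - b q.1)) (by fun_prop)
      fun q => ⟨⟨trivial, mem_ball_self hρ⟩, trivial⟩
  refine ⟨fun p z => qt (Φ p) (H p) (z - b p), fun q hq => ?_, fun p => ?_, fun p z hz => ?_,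
    fun p z => ?_, fun p z e => if_pos e, fun p z hr => ?_⟩
  · have cH : Continuous fun q : P × E => H q.1 := by fun_prop
    by_cases e : H q.1 = 0
    · have h1 : Tendsto (fun y : P × E => qt (Φ y.1) (H y.1) (y.2 - b y.1) -
          fderiv ℂ (Φ y.1) 0 (y.2 - b y.1)) (𝓝[{q | q.2 ∈ S q.1}] q) (𝓝 0) := by
        refine squeeze_zero_norm' (a := fun y => 4 * M / ρ ^ 2 * R ^ 2 * H y.1) ?_ ?_
        · filter_upwards [self_mem_nhdsWithin, mem_nhdsWithin_of_mem_nhds
            (cH.continuousAt.eventually_lt continuousAt_const (e.trans_lt hH1)),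
            mem_nhdsWithin_of_mem_nhds ((cH.mul continuous_const).continuousAt.eventually_lt
              (continuousAt_const (y := ρ)) (show H q.1 * R < ρ by rwa [e, zero_mul]))]
            with y y1 y2 y3
          exact (small hρ (hd _) (hM _) (h0 _ y2.le) (H0 _) (hS _ _ y1) y3).2
        · exact ((continuous_const.mul cH).tendsto' q 0 (by simp [e])).mono_left nhdsWithin_le_nhds
      have h2 := h1.add (hL.continuousWithinAt (x := q))
      simp only [sub_add_cancel, zero_add] at h2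
      simpa only [ContinuousWithinAt, qt, if_pos e] using h2
    · refine ((Complex.continuous_ofReal.continuousAt.comp
        (cH.continuousAt.inv₀ e)).continuousWithinAt.mul (hc' q hq)).congr_of_eventuallyEq ?_
        (if_neg e)
      filter_upwards [mem_nhdsWithin_of_mem_nhds (cH.continuousAt.eventually_ne e)] with y hy
      exact if_neg hy
  · by_cases e : H p = 0
    · simp only [qt, if_pos e]
      fun_prop
    · simp only [qt, if_neg e]
      exact (hd' p).const_mul _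
  · have M0 : 0 ≤ M := (norm_nonneg _).trans (hM p 0 (mem_ball_self hρ))
    have e : (2 * R / ρ + 1 / H1) * M = 2 * M / ρ * R + H1⁻¹ * M := by ring
    have p1 : 0 ≤ 2 * M / ρ * R := by positivity
    have p2 : 0 ≤ H1⁻¹ * M := by positivity
    rw [e]
    rcases le_or_gt (H p) H1 with a | a
    · rcases lt_or_ge (H p * R) ρ with c | c
      · linarith [(small hρ (hd p) (hM p) (h0 p a) (H0 p) (hS p z hz) c).1]
      · have hp : 0 < H p := pos_of_mul_pos_left (hρ.trans_le c) hR.le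
        have h1 : (H p)⁻¹ ≤ R / ρ := by rwa [inv_le_iff_one_le_mul₀ hp, div_mul_eq_mul_div,
          one_le_div hρ, mul_comm]
        have h2 := mul_le_mul h1 (hM' p z hz) (norm_nonneg _) (by positivity)
        have h3 : 2 * M / ρ * R = 2 * (R / ρ * M) := by ring
        rw [norm_qt hp]
        linarith
    · have h2 := mul_le_mul (inv_anti₀ hH1 a.le) (hM' p z hz) (norm_nonneg _) (by positivity)
      rw [norm_qt (hH1.trans a)]
      linarith
  · by_cases e : H p = 0
    · simp [e, h0 p (e.trans_le hH1.le)]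
    · simp only [qt, if_neg e]
      rw [← mul_assoc, ← Complex.ofReal_mul, mul_inv_cancel₀ e, Complex.ofReal_one, one_mul]
  · by_cases e : H p = 0
    · simp only [qt, if_pos e]
      exact real0 hρ (hd p) fun t ht => hr t (.inr ht)
    · simp only [qt, if_neg e]
      rw [Complex.im_ofReal_mul, hr _ (.inl rfl), mul_zero]

end Pool.Agent.MP_1ba41f_an.S2.LB
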