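import Pool.Agent.MP_1ba41f_an.S2.RK.All
import Pool.Agent.MP_1ba41f_an.S2.LB.Dc
import Pool.Agent.MP_1ba41f_an.S2.LB.Resc
import Pool.Agent.MP_1ba41f_an.S2.LB.Norm
import Pool.Agent.MP_1ba41f_an.S2.LB.Fixp
import Pool.Agent.MP_1ba41f_an.S2.LB.Lift
import Pool.Agent.MP_1ba41f_an.S2.LB.Red
import Pool.Agent.MP_1ba41f_an.S2.LB.Fr1
import Pool.Agent.MP_1ba41f_an.S2.LB.Frame
import Pool.Agent.MP_1ba41f_an.S2.LB.Newt
import Pool.Agent.MP_1ba41f_an.S2.LB.Lb1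
import Pool.Agent.MP_1ba41f_an.S2.LB.Fin

/-! Invariant circles of all sizes down to zero: assembly. -/

set_option autoImplicit false

namespace Pool.Agent.MP_1ba41f_an.S2.LB

theorem lbAll : LBStmt :=
  lbS (red (norm (resc dc)) (fixp dc) (liftS (resc dc))) (lb1 RK.rkAll (frame (fr1 dc)) newt)

end Pool.Agent.MP_1ba41f_an.S2.LB
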