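import Pool.Agent.MP_1ba41f_an.S2.LB.Spec
import Pool.Agent.MP_1ba41f_an.S2.OD.Cau
import Pool.Agent.MP_1ba41f_an.S2.OD.HolB

/-! Invariant circles of all sizes down to zero: shared lemmas. -/

set_option autoImplicit false

open Set Metric Filter Topology

namespace Pool.Agent.MP_1ba41f_an.S2.LB

variable {P : Type} {n : ℕ}

theorem strip_open (s : ℝ) : IsOpen (strip s) := isOpen_lt (by fun_prop) continuous_const

theorem real_mem_strip {s : ℝ} (hs : 0 < s) (θ : ℝ) : (θ : ℂ) ∈ strip s := by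
  simpa [strip] using hs

theorem strip_mono {s s' : ℝ} (h : s' ≤ s) : strip s' ⊆ strip s := fun _ hz => lt_of_lt_of_le hz h

theorem ball_sub_strip {s : ℝ} {θ : ℂ} (h : θ ∈ strip s) : ball θ s ⊆ strip (2 * s) := by
  intro z hz
  have h1 : |(z - θ).im| < s := (Complex.abs_im_le_norm _).trans_lt (mem_ball_iff_norm.1 hz)
  have h2 : |θ.im| < s := h
  rw [Complex.sub_im, abs_lt] at h1
  rw [abs_lt] at h2
  show |z.im| < 2 * s
  rw [abs_lt]
  constructor <;> linarith [h1.1, h2.1, h1.2, h2.2]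

theorem norm_det2 (u v : C2) : ‖det2 u v‖ ≤ 2 * (‖u‖ * ‖v‖) := by
  have h1 : ‖u.1 * v.2‖ ≤ ‖u‖ * ‖v‖ := by
    rw [norm_mul]; gcongr; exacts [norm_fst_le u, norm_snd_le v]
  have h2 : ‖u.2 * v.1‖ ≤ ‖u‖ * ‖v‖ := by
    rw [norm_mul]; gcongr; exacts [norm_snd_le u, norm_fst_le v]
  exact (norm_sub_le _ _).trans (by linarith)

theorem norm_Gm (x : C2) : ‖Gm x‖ = ‖x‖ := by simp [Gm, Prod.norm_def]

theorem continuous_Gm : Continuous Gm := by unfold Gm; fun_prop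

theorem differentiable_Gm : Differentiable ℂ Gm := by unfold Gm; fun_prop

/-- derivative of a function that is real on the reals -/
theorem im_deriv {g : ℂ → ℂ} {g' : ℂ} {x : ℝ} (h : HasDerivAt g g' x)
    (hr : ∀ᶠ t : ℝ in 𝓝 x, (g t).im = 0) : g'.im = 0 := by
  have h1 : HasDerivAt (fun t : ℝ => (g t).im) g'.im x :=
    Complex.imCLM.hasFDerivAt.comp_hasDerivAt x h.comp_ofReal
  exact h1.unique ((hasDerivAt_const x (0 : ℝ)).congr_of_eventuallyEq hr)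

/-- reduction of the angle -/
theorem per_red {X : Type} {γ : ℝ → X} (h : ∀ θ, γ (θ + 2 * Real.pi) = γ θ) (θ : ℝ) :
    ∃ θ' ∈ Icc (0 : ℝ) (2 * Real.pi), γ θ = γ θ' := by
  obtain ⟨y, hy, e⟩ := Function.Periodic.exists_mem_Ico₀ h Real.two_pi_pos θ
  exact ⟨y, Ico_subset_Icc_self hy, e⟩

section Top
variable [TopologicalSpace P]

theorem tube_open {γ : P → ℝ → C2} (h : Continuous fun q : P × ℝ => γ q.1 q.2) (d : ℝ) :
    IsOpen {q : P × C2 | ∃ θ, ‖q.2 - γ q.1 θ‖ < d} := by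
  rw [ofPred_exists]
  refine isOpen_iUnion fun θ => isOpen_lt ?_ continuous_const
  have : Continuous fun q : P × C2 => γ q.1 θ :=
    h.comp (f := fun q : P × C2 => (q.1, θ)) (by fun_prop)
  fun_prop

theorem tube_bd [CompactSpace P] {γ : P → ℝ → C2} (h : Continuous fun q : P × ℝ => γ q.1 q.2)
    (hp : ∀ p θ, γ p (θ + 2 * Real.pi) = γ p θ) {d d' : ℝ} (hd : d' < d) {Φ : P → C2 → C2}
    (hΦ : ContinuousOn (fun q : P × C2 => Φ q.1 q.2) {q | ∃ θ, ‖q.2 - γ q.1 θ‖ < d}) :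
    ∃ M, 0 < M ∧ ∀ p θ x, ‖x - γ p θ‖ ≤ d' → ‖Φ p x‖ ≤ M := by
  have hK : IsCompact (((univ : Set P) ×ˢ Icc (0 : ℝ) (2 * Real.pi)) ×ˢ closedBall (0 : C2) d') :=
    (isCompact_univ.prod isCompact_Icc).prod (isCompact_closedBall _ _)
  have h1 : Continuous fun q : (P × ℝ) × C2 => γ q.1.1 q.1.2 := h.comp continuous_fst
  obtain ⟨M, hM⟩ := hK.exists_bound_of_continuousOn
    (hΦ.comp (f := fun q : (P × ℝ) × C2 => (q.1.1, γ q.1.1 q.1.2 + q.2)) (by fun_prop)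
      fun q hq => ⟨q.1.2, by simpa using (mem_closedBall_zero_iff.1 hq.2).trans_lt hd⟩)
  refine ⟨max M 1, by positivity, fun p θ x hx => le_max_of_le_left ?_⟩
  obtain ⟨θ', h', e⟩ := per_red (hp p) θ
  rw [e] at hx
  simpa using hM ((p, θ'), x - γ p θ') ⟨⟨trivial, h'⟩, mem_closedBall_zero_iff.2 hx⟩

variable {s s' s0 M M' : ℝ} {K V : P → ℂ → C2}

theorem crv_cont (h : Crv s0 V) (hs : 0 < s0) : Continuous fun q : P × ℝ => V q.1 q.2 :=
  h.cont.comp_continuous (f := fun q : P × ℝ => (q.1, (q.2 : ℂ))) (by fun_prop)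
    fun q => ⟨trivial, real_mem_strip hs _⟩

theorem crv_per (h : Crv s0 V) (hs : 0 < s0) (p : P) (θ : ℝ) :
    V p ((θ + 2 * Real.pi : ℝ) : ℂ) = V p θ := by
  push_cast
  exact h.per p _ (real_mem_strip hs θ)

theorem cur_cont {H mc : P → ℝ} (hH : Continuous H) (hm : Continuous mc) (h : Crv s0 V)
    (hs : 0 < s0) : Continuous fun q : P × ℝ => cur H mc V q.1 q.2 := by
  unfold cur
  have h1 : Continuous fun q : P × ℝ => (H q.1 : ℂ) := by fun_prop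
  exact Continuous.add (by fun_prop) (h1.smul (crv_cont h hs))

theorem cur_per (H mc : P → ℝ) (h : Crv s0 V) (hs : 0 < s0) (p : P) (θ : ℝ) :
    cur H mc V p ((θ + 2 * Real.pi : ℝ) : ℂ) = cur H mc V p θ := by
  rw [cur, crv_per h hs, cur]

theorem nb_open (h : Crv s0 V) (hs : 0 < s0) (d : ℝ) : IsOpen {q : P × C2 | q.2 ∈ nb d V q.1} :=
  tube_open (γ := fun p θ => V p θ) (crv_cont h hs) d

theorem nbh_open {H mc : P → ℝ} (hH : Continuous H) (hm : Continuous mc) (h : Crv s0 V)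
    (hs : 0 < s0) (d : ℝ) : IsOpen {q : P × C2 | q.2 ∈ nbh d H mc V q.1} :=
  tube_open (γ := fun p θ => cur H mc V p θ) (cur_cont hH hm h hs) d

omit [TopologicalSpace P] in
theorem nb_fibre_open (d : ℝ) (V : P → ℂ → C2) (p : P) : IsOpen (nb d V p) := by
  rw [nb, ofPred_exists]
  exact isOpen_iUnion fun θ => isOpen_lt (by fun_prop) continuous_const

omit [TopologicalSpace P] in
theorem nbh_fibre_open (d : ℝ) (H mc : P → ℝ) (V : P → ℂ → C2) (p : P) :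
    IsOpen (nbh d H mc V p) := by
  rw [nbh, ofPred_exists]
  exact isOpen_iUnion fun θ => isOpen_lt (by fun_prop) continuous_const

omit [TopologicalSpace P] in
theorem nbh_mono {d d' : ℝ} (h : d' ≤ d) (H mc : P → ℝ) (V : P → ℂ → C2) (p : P) :
    nbh d' H mc V p ⊆ nbh d H mc V p := fun _ ⟨θ, hθ⟩ => ⟨θ, hθ.trans_le h⟩

/-- the bound of a curve on the half strip -/
theorem _root_.Pool.Agent.MP_1ba41f_an.S2.Crv.cv [CompactSpace P] (h : Crv s0 V) (hs : 0 < s0) :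
    ∃ M, 0 < M ∧ Cv (s0 / 2) M V := by
  have hK : IsCompact ((univ : Set P) ×ˢ (Icc (0 : ℝ) (2 * Real.pi) ×ˢ Icc (-(s0 / 2)) (s0 / 2))) :=
    isCompact_univ.prod (isCompact_Icc.prod isCompact_Icc)
  have hm : ∀ a b : ℝ, |b| ≤ s0 / 2 → ((a : ℂ) + b * Complex.I) ∈ strip s0 := fun a b hb => by
    simpa [strip] using hb.trans_lt (by linarith)
  obtain ⟨M, hM⟩ := hK.exists_bound_of_continuousOn
    (h.cont.comp (f := fun q : P × ℝ × ℝ => (q.1, (q.2.1 : ℂ) + q.2.2 * Complex.I)) (by fun_prop)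
      fun q hq => ⟨trivial, hm _ _ (abs_le.2 hq.2.2)⟩)
  have sub : strip (s0 / 2) ⊆ strip s0 := strip_mono (by linarith)
  refine ⟨max M 1, by positivity, h.cont.mono (prod_mono le_rfl sub), fun p => (h.diff p).mono sub,
    fun p θ hθ => h.per p θ (sub hθ), h.real, fun p θ hθ => le_max_of_le_left ?_⟩
  have hb : |θ.im| ≤ s0 / 2 := le_of_lt hθ
  obtain ⟨a, ha, e⟩ := per_red (γ := fun a : ℝ => V p (a + θ.im * Complex.I)) (fun a => by
    rw [← h.per p _ (hm a _ hb)]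
    congr 1
    push_cast
    ring) θ.re
  rw [Complex.re_add_im] at e
  rw [e]
  exact hM (p, a, θ.im) ⟨trivial, ha, abs_le.1 hb⟩

theorem Cv.mono (h : Cv s M K) (hs : s' ≤ s) (hM : M ≤ M') : Cv s' M' K :=
  ⟨h.cont.mono (prod_mono le_rfl (strip_mono hs)), fun p => (h.diff p).mono (strip_mono hs),
    fun p θ hθ => h.per p θ (strip_mono hs hθ), h.real,
    fun p θ hθ => (h.bd p θ (strip_mono hs hθ)).trans hM⟩

theorem Cv.cont_real (h : Cv s M K) (hs : 0 < s) : Continuous fun q : P × ℝ => K q.1 q.2 :=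
  h.cont.comp_continuous (f := fun q : P × ℝ => (q.1, (q.2 : ℂ))) (by fun_prop)
    fun q => ⟨trivial, real_mem_strip hs _⟩

theorem Cv.lip (h : Cv (2 * s) M K) (p : P) {θ ξ : ℂ} (hθ : θ ∈ strip s) (hξ : ‖ξ‖ < s) :
    ‖K p (θ + ξ) - K p θ‖ ≤ 2 * M / s * ‖ξ‖ := by
  have := (cauS ℂ C2 (K p) θ s M ((norm_nonneg _).trans_lt hξ) ((h.diff p).mono (ball_sub_strip hθ))
    fun z hz => h.bd p z (ball_sub_strip hθ hz)).2.1 (θ + ξ) (by simpa using hξ)
  simpa using this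

theorem Cv.tay (h : Cv (2 * s) M K) (p : P) {θ ξ : ℂ} (hθ : θ ∈ strip s) (hξ : ‖ξ‖ < s) :
    ‖K p (θ + ξ) - K p θ - ξ • deriv (K p) θ‖ ≤ 4 * M / s ^ 2 * ‖ξ‖ ^ 2 := by
  have := (cauS ℂ C2 (K p) θ s M ((norm_nonneg _).trans_lt hξ) ((h.diff p).mono (ball_sub_strip hθ))
    fun z hz => h.bd p z (ball_sub_strip hθ hz)).2.2.1 (θ + ξ) (by simpa using hξ)
  simpa [fderiv_eq_smul_deriv] using this

variable {O O' : P → Set C2} {μ μ' : ℝ} {F : P → Ws n → ℂ}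

theorem _root_.Pool.Agent.MP_1ba41f_an.S2.HolW.mono (h : HolW O μ F) (hμ : μ ≤ μ') : HolW O μ' F :=
  ⟨h.cont, h.diff, fun p z hz => (h.bd p z hz).trans hμ, h.real⟩

theorem _root_.Pool.Agent.MP_1ba41f_an.S2.HolW.sub (h : HolW O μ F) (hO : ∀ p, O' p ⊆ O p) :
    HolW O' μ F :=
  ⟨h.cont.mono fun _ hq => ⟨hO _ hq.1, hq.2⟩, fun p => (h.diff p).mono fun _ hz => ⟨hO _ hz.1, hz.2⟩,
    fun p z hz => h.bd p z ⟨hO _ hz.1, hz.2⟩, fun p _ _ _ _ hz => h.real p _ _ _ _ ⟨hO _ hz.1, hz.2⟩⟩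

end Top

/-- the centre is not degenerate -/
theorem ctr [MetricSpace P] {s0 d0 : ℝ} {H mc om : P → ℝ} {V N : P → ℂ → C2} {Pm : P → C2 → C2}
    (h : LBData s0 d0 H mc om V N Pm) (p : P) (h0 : H p = 0)
    (hi : ∀ θ : ℝ, fderiv ℂ (Pm p) (cur H mc V p 0) (deriv (V p) (-θ - om p : ℝ)) =
      -Gm (fderiv ℂ (Pm p) (cur H mc V p 0) (deriv (V p) θ))) :
    (fderiv ℂ (Pm p) (cur H mc V p 0) (1, 0)).2 ≠ 0 := by
  intro hJ
  obtain ⟨θ, h2, hne⟩ := h.ctr p h0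
  have ht := h.trv p θ
  have hi := hi θ
  rw [show cur H mc V p θ = cur H mc V p 0 by simp [cur, h0]] at ht
  set A := fderiv ℂ (Pm p) (cur H mc V p 0)
  have lin : ∀ v : C2, A v = v.1 • A (1, 0) + v.2 • A (0, 1) := fun v => by
    rw [← map_smul, ← map_smul, ← map_add]
    congr 1
    ext <;> simp
  rw [lin (N p θ), lin (deriv (V p) θ)] at ht
  rw [lin (deriv (V p) θ), lin (deriv (V p) (-θ - om p : ℝ))] at hi
  have i1 := congrArg Prod.fst hi
  have i2 := congrArg Prod.snd hi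
  simp only [det2, Gm, h2, hJ, Prod.fst_add, Prod.snd_add, Prod.smul_fst, Prod.smul_snd,
    smul_eq_mul, Prod.fst_neg, Prod.snd_neg, mul_zero, zero_mul, add_zero, zero_add, neg_zero,
    zero_sub, ne_eq, neg_eq_zero, mul_eq_zero, not_or] at ht i1 i2
  have e2 := i2.resolve_right ht.1.2
  rw [e2, zero_mul, add_zero, ← neg_mul] at i1
  exact hne (Prod.ext (mul_right_cancel₀ ht.2.2 i1) (by rw [e2, Prod.snd_neg, h2, neg_zero]))

end Pool.Agent.MP_1ba41f_an.S2.LB
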