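import Pool.Agent.MP_1ba41f_an.S2.LB.Bas

/-! Invariant circles of all sizes down to zero: closure properties of holomorphic families. -/

set_option autoImplicit false

open Set

namespace Pool.Agent.MP_1ba41f_an.S2.LB

variable {P : Type} [TopologicalSpace P] {N n : ℕ} {s s' M : ℝ}

/-- scalar families, without a bound -/
structure Hq (s : ℝ) (F : P → Zs N → ℂ) : Prop where
  cont : ContinuousOn (fun q : P × Zs N => F q.1 q.2) (univ ×ˢ Dom N s)
  diff : ∀ p, DifferentiableOn ℂ (F p) (Dom N s)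
  per : ∀ p, ∀ z ∈ Dom N s, F p (z.1 + 2 * Real.pi, z.2) = F p z
  real : ∀ p θ y h0 h1 h2, rp θ y h0 h1 h2 ∈ Dom N s → (F p (rp θ y h0 h1 h2)).im = 0

/-- plane valued families -/
structure Hv (s : ℝ) (F : P → Zs N → C2) : Prop where
  cont : ContinuousOn (fun q : P × Zs N => F q.1 q.2) (univ ×ˢ Dom N s)
  diff : ∀ p, DifferentiableOn ℂ (F p) (Dom N s)
  per : ∀ p, ∀ z ∈ Dom N s, F p (z.1 + 2 * Real.pi, z.2) = F p z
  real : ∀ p θ y h0 h1 h2, rp θ y h0 h1 h2 ∈ Dom N s → RealC2 (F p (rp θ y h0 h1 h2))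

variable {F G : P → Zs N → ℂ} {A B : P → Zs N → C2}

theorem Hq.hol {η : ℝ} (h : Hq s F) (hb : ∀ p, ∀ z ∈ Dom N s, ‖F p z‖ ≤ η) : Hol s η F :=
  ⟨h.cont, h.diff, hb, h.per, h.real⟩

theorem Hq.const (c : ℝ) : Hq s fun (_ : P) (_ : Zs N) => (c : ℂ) :=
  ⟨continuousOn_const, fun _ => differentiableOn_const _, fun _ _ _ => rfl,
    fun _ _ _ _ _ _ _ => rfl⟩

theorem Hq.y : Hq s fun (_ : P) (z : Zs N) => z.2.1 :=
  ⟨by fun_prop, fun _ => by fun_prop, fun _ _ _ => rfl, fun _ _ _ _ _ _ _ => rfl⟩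

theorem Hq.h (j : Fin N) : Hq s fun (_ : P) (z : Zs N) => z.2.2.1 j :=
  ⟨by fun_prop, fun _ => by fun_prop, fun _ _ _ => rfl, fun _ _ _ _ _ _ _ => rfl⟩

theorem Hq.add (h : Hq s F) (h' : Hq s G) : Hq s fun p z => F p z + G p z :=
  ⟨h.cont.add h'.cont, fun p => (h.diff p).add (h'.diff p),
    fun p z hz => by rw [h.per p z hz, h'.per p z hz], fun p a b c d e hz => by
      rw [Complex.add_im, h.real p a b c d e hz, h'.real p a b c d e hz, add_zero]⟩

theorem Hq.mul (h : Hq s F) (h' : Hq s G) : Hq s fun p z => F p z * G p z :=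
  ⟨h.cont.mul h'.cont, fun p => (h.diff p).mul (h'.diff p),
    fun p z hz => by rw [h.per p z hz, h'.per p z hz], fun p a b c d e hz => by
      simp [h.real p a b c d e hz, h'.real p a b c d e hz]⟩

theorem Hq.div (h : Hq s F) (h' : Hq s G) (h0 : ∀ p, ∀ z ∈ Dom N s, G p z ≠ 0) :
    Hq s fun p z => F p z / G p z :=
  ⟨h.cont.div h'.cont fun q hq => h0 _ _ hq.2, fun p => by
      simpa only [div_eq_mul_inv] using (h.diff p).fun_mul ((h'.diff p).fun_inv (h0 p)),
    fun p z hz => by rw [h.per p z hz, h'.per p z hz], fun p a b c d e hz => by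
      simp [Complex.div_im, h.real p a b c d e hz, h'.real p a b c d e hz]⟩

theorem Hv.add (h : Hv s A) (h' : Hv s B) : Hv s fun p z => A p z + B p z :=
  ⟨h.cont.add h'.cont, fun p => (h.diff p).add (h'.diff p),
    fun p z hz => by rw [h.per p z hz, h'.per p z hz], fun p a b c d e hz => by
      have h1 := h.real p a b c d e hz
      have h2 := h'.real p a b c d e hz
      simp [RealC2, h1.1, h1.2, h2.1, h2.2]⟩

theorem Hv.sub (h : Hv s A) (h' : Hv s B) : Hv s fun p z => A p z - B p z :=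
  ⟨h.cont.sub h'.cont, fun p => (h.diff p).sub (h'.diff p),
    fun p z hz => by rw [h.per p z hz, h'.per p z hz], fun p a b c d e hz => by
      have h1 := h.real p a b c d e hz
      have h2 := h'.real p a b c d e hz
      simp [RealC2, h1.1, h1.2, h2.1, h2.2]⟩

theorem Hq.smul (h : Hq s F) (h' : Hv s B) : Hv s fun p z => F p z • B p z :=
  ⟨h.cont.smul h'.cont, fun p => (h.diff p).smul (h'.diff p),
    fun p z hz => by rw [h.per p z hz, h'.per p z hz], fun p a b c d e hz => by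
      have h2 := h'.real p a b c d e hz
      simp [RealC2, h.real p a b c d e hz, h2.1, h2.2]⟩

theorem Hq.pair (h : Hq s F) (h' : Hq s G) : Hv s fun p z => (F p z, G p z) :=
  ⟨h.cont.prodMk h'.cont, fun p => (h.diff p).prodMk (h'.diff p),
    fun p z hz => by rw [h.per p z hz, h'.per p z hz], fun p a b c d e hz =>
      ⟨h.real p a b c d e hz, h'.real p a b c d e hz⟩⟩

theorem Hv.det (h : Hv s A) (h' : Hv s B) : Hq s fun p z => det2 (A p z) (B p z) :=
  ⟨(h.cont.fst.mul h'.cont.snd).sub (h.cont.snd.mul h'.cont.fst),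
    fun p => ((h.diff p).fst.mul (h'.diff p).snd).sub ((h.diff p).snd.mul (h'.diff p).fst),
    fun p z hz => by rw [h.per p z hz, h'.per p z hz], fun p a b c d e hz => by
      have h1 := h.real p a b c d e hz
      have h2 := h'.real p a b c d e hz
      simp [det2, h1.1, h1.2, h2.1, h2.2]⟩

theorem Cv.hv {K : P → ℂ → C2} (hK : Cv s' M K) (h : Hq s F)
    (hm : ∀ p, ∀ z ∈ Dom N s, z.1 + F p z ∈ strip s') : Hv s fun p z => K p (z.1 + F p z) where
  cont := hK.cont.comp (f := fun q : P × Zs N => (q.1, q.2.1 + F q.1 q.2))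
    (continuousOn_fst.prodMk (ContinuousOn.add (by fun_prop) h.cont))
    fun q hq => ⟨trivial, hm _ _ hq.2⟩
  diff p := (hK.diff p).comp (DifferentiableOn.add (by fun_prop) (h.diff p)) (hm p)
  per p z hz := by
    rw [h.per p z hz, ← hK.per p _ (hm p z hz), add_right_comm]
  real p a b c d e hz := by
    have : (rp a b c d e).1 + F p (rp a b c d e) = ((a + (F p (rp a b c d e)).re : ℝ) : ℂ) :=
      Complex.ext (by simp [rp]) (by rw [Complex.add_im, h.real p a b c d e hz]; simp [rp])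
    rw [this]
    exact hK.real p _

theorem Cv.hv0 {K : P → ℂ → C2} (hK : Cv s' M K) (hs : s ≤ s') :
    Hv s fun p (z : Zs N) => K p z.1 := by
  simpa using hK.hv (Hq.const (N := N) (s := s) 0) fun p z hz => by
    simpa using strip_mono hs hz.1

theorem Hv.comp {O : P → Set C2} {Pm : P → C2 → C2} (h : Hv s A)
    (hm : ∀ p, ∀ z ∈ Dom N s, A p z ∈ O p)
    (pc : ContinuousOn (fun q : P × C2 => Pm q.1 q.2) {q | q.2 ∈ O q.1})
    (pd : ∀ p, DifferentiableOn ℂ (Pm p) (O p))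
    (pr : ∀ p, ∀ x ∈ O p, RealC2 x → RealC2 (Pm p x)) : Hv s fun p z => Pm p (A p z) :=
  ⟨pc.comp (f := fun q : P × Zs N => (q.1, A q.1 q.2)) (continuousOn_fst.prodMk h.cont)
      fun q hq => hm _ _ hq.2, fun p => (pd p).comp (h.diff p) (hm p),
    fun p z hz => by rw [h.per p z hz],
    fun p a b c d e hz => pr p _ (hm p _ hz) (h.real p a b c d e hz)⟩

theorem norm_tl {h : Hh (n + 2)} (hh : ‖h‖ < 1) : ‖tl h‖ < 1 :=
  (pi_norm_lt_iff zero_lt_one).2 fun _ => (norm_le_pi_norm h _).trans_lt hh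

theorem Hv.holW {O : P → Set C2} {μ : ℝ} {f : P → Ws n → ℂ} {A : P → Zs (n + 2) → C2} (h : Hv s A)
    (hm : ∀ p, ∀ z ∈ Dom (n + 2) s, A p z ∈ O p) (hf : HolW O μ f) :
    Hq s fun p z => f p (A p z, tl z.2.2.1, tl z.2.2.2.1, tl z.2.2.2.2) := by
  have mem : ∀ p, ∀ z ∈ Dom (n + 2) s,
      (A p z, tl z.2.2.1, tl z.2.2.2.1, tl z.2.2.2.2) ∈ DomW (O p) := fun p z hz =>
    ⟨hm p z hz, norm_tl hz.2.2.1, norm_tl hz.2.2.2.1, norm_tl hz.2.2.2.2⟩
  refine ⟨hf.cont.comp (f := fun q : P × Zs (n + 2) =>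
      (q.1, A q.1 q.2, tl q.2.2.2.1, tl q.2.2.2.2.1, tl q.2.2.2.2.2))
      (continuousOn_fst.prodMk (h.cont.prodMk (by unfold tl; fun_prop))) fun q hq => mem _ _ hq.2,
    fun p => (hf.diff p).comp ((h.diff p).prodMk (by unfold tl; fun_prop)) (mem p),
    fun p z hz => by rw [h.per p z hz], fun p a b c d e hz => ?_⟩
  have h1 := h.real p a b c d e hz
  have h2 := mem p _ hz
  have : A p (rp a b c d e) = r2c ((A p (rp a b c d e)).1.re, (A p (rp a b c d e)).2.re) :=
    Prod.ext (Complex.ext rfl h1.1) (Complex.ext rfl h1.2)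
  rw [this] at h2 ⊢
  exact hf.real p _ (fun j => c j.succ.succ) (fun j => d j.succ.succ) (fun j => e j.succ.succ) h2

end Pool.Agent.MP_1ba41f_an.S2.LB
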