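import Pool.Agent.MP_1ba41f_an.S2.LB.Bas

/-! Invariant circles of all sizes down to zero: the normalised case. -/

set_option autoImplicit false

open Set

namespace Pool.Agent.MP_1ba41f_an.S2.LB

namespace Lb1

variable {P : Type} [TopologicalSpace P] {η s M : ℝ} {u v : P → ℝ → ℝ} {K : P → ℂ → C2}

theorem sm (h : Sm η u) : Pa u := ⟨h.cont, h.per, h.ana⟩

theorem add (h : Pa u) (h' : Pa v) : Pa fun p θ => u p θ + v p θ :=
  ⟨h.cont.add h'.cont, fun p θ => by rw [h.per, h'.per], fun p => (h.ana p).add (h'.ana p)⟩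

theorem mul (h : Pa u) (h' : Pa v) : Pa fun p θ => u p θ * v p θ :=
  ⟨h.cont.mul h'.cont, fun p θ => by rw [h.per, h'.per], fun p => (h.ana p).mul (h'.ana p)⟩

theorem const (c : ℝ) : Pa fun (_ : P) (_ : ℝ) => c :=
  ⟨continuous_const, fun _ _ => rfl, fun _ => analyticOnNhd_const⟩

theorem cv (hK : Cv s M K) (hs : 0 < s) (h : Pa u) (L : C2 →L[ℝ] ℝ) :
    Pa fun p θ => L (K p ((θ + u p θ : ℝ) : ℂ)) := by
  refine ⟨L.continuous.comp ((hK.cont_real hs).comp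
    (f := fun q : P × ℝ => (q.1, q.2 + u q.1 q.2))
    (continuous_fst.prodMk (continuous_snd.add h.cont))), fun p θ => ?_, fun p θ _ => ?_⟩
  · rw [h.per, add_right_comm, ← hK.per p _ (real_mem_strip hs (θ + u p θ))]
    push_cast
    rfl
  · have h1 : AnalyticAt ℝ (K p) ((θ + u p θ : ℝ) : ℂ) := ((hK.diff p).analyticAt
      ((strip_open s).mem_nhds (real_mem_strip hs _))).restrictScalars
    have h2 : AnalyticAt ℝ (fun θ => ((θ + u p θ : ℝ) : ℂ)) θ :=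
      (Complex.ofRealCLM.analyticAt _).comp (analyticAt_id.add (h.ana p θ trivial))
    exact (L.analyticAt _).comp (h1.comp (f := fun θ => ((θ + u p θ : ℝ) : ℂ)) h2)

theorem r2c_eq {a b : C2} (ha : RealC2 a) (hb : RealC2 b) (c : ℝ) :
    r2c (a.1.re + c * b.1.re, a.2.re + c * b.2.re) = a + (c : ℂ) • b :=
  Prod.ext (Complex.ext (by simp [r2c, hb.1]) (by simp [r2c, ha.1, hb.1]))
    (Complex.ext (by simp [r2c, hb.2]) (by simp [r2c, ha.2, hb.2]))

end Lb1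

theorem lb1 (rk : RKStmt) (frame : FrameStmt) (newt : NewtStmt) : Lb1Stmt := by
  intro P _ _ s0 d om V N Pm nd n w g η hw hη
  obtain ⟨s, ρ, M, δ, c, T, ν, π, fd⟩ := frame P s0 d om V N Pm nd
  have fr := fd.fr
  have s2 := fr.spos
  have hs : 0 < s := by linarith
  have hM := fr.Mpos
  set e := min η (min (s / 2) (η / (2 * M / s + M))) with he
  have ep : 0 < e := by positivity
  have e1 : e ≤ η := min_le_left _ _
  have e2 : e ≤ s / 2 := (min_le_right _ _).trans (min_le_left _ _)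
  have e3 : (2 * M / s + M) * e ≤ η :=
    (le_div_iff₀' (by positivity)).1 ((min_le_right _ _).trans (min_le_right _ _))
  obtain ⟨η1, hη1, hrk⟩ := rk (n + 2) s g w e hs hw ep
  obtain ⟨r, μ, r0, r1, μ0, hn⟩ := newt P s0 d om V N Pm s ρ M δ c T ν π nd fd n η1 hη1
  refine ⟨μ, μ0, fun f1 f2 G h1 h2 h3 => ?_⟩
  obtain ⟨F1, F2, Xi, k1, k2, k3, eqn⟩ := hn f1 f2 G h1 h2 h3
  obtain ⟨u, y, xu, xy, h, sig, su, sy, -, -, sh, cs, bs, ou, oxu, ey, exy, sol⟩ :=
    hrk P F1 F2 Xi k1 k2 k3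
  set a : P → ℝ → ℝ := fun p θ =>
    (V p ((θ + u p θ : ℝ) : ℂ)).1.re + r * y p θ * (N p ((θ + u p θ : ℝ) : ℂ)).1.re with ha
  set b : P → ℝ → ℝ := fun p θ =>
    (V p ((θ + u p θ : ℝ) : ℂ)).2.re + r * y p θ * (N p ((θ + u p θ : ℝ) : ℂ)).2.re with hb
  have k : ∀ p θ, r2c (a p θ, b p θ) =
      V p ((θ + u p θ : ℝ) : ℂ) + ((r * y p θ : ℝ) : ℂ) • N p ((θ + u p θ : ℝ) : ℂ) := fun p θ =>
    Lb1.r2c_eq (nd.cv.real p _) (nd.cn.real p _) _
  have key : ∀ p θ, ptW w (a p) (b p) (fun θ j => h p θ j.succ.succ) θ =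
      Wz V N r p (pt w (u p) (y p) (h p) θ) := fun p θ => by
    refine Prod.ext ((k p θ).trans ?_) rfl
    simp [Wz, pt, rp]
  have key1 : ∀ p θ, r2c (a p θ, b p θ) = (Wz V N r p (pt w (u p) (y p) (h p) θ)).1 := fun p θ =>
    congrArg Prod.fst (key p θ)
  have py := Lb1.mul (Lb1.const r) (Lb1.sm sy)
  have L1 := fun {K : P → ℂ → C2} (hK : Cv (2 * s) M K) =>
    Lb1.cv hK s2 (Lb1.sm su) (Complex.reCLM.comp (ContinuousLinearMap.fst ℝ ℂ ℂ))
  have L2 := fun {K : P → ℂ → C2} (hK : Cv (2 * s) M K) =>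
    Lb1.cv hK s2 (Lb1.sm su) (Complex.reCLM.comp (ContinuousLinearMap.snd ℝ ℂ ℂ))
  have X : ∀ p θ, Pm p (Wz V N r p (pt w (u p) (y p) (h p) θ)).1 +
      (f1 p (Wz V N r p (pt w (u p) (y p) (h p) θ)), f2 p (Wz V N r p (pt w (u p) (y p) (h p) θ))) =
      c p ((θ + xu p (θ + w / 2) - sig p : ℝ) : ℂ) +
        ((r : ℂ) * xy p (θ + w / 2)) • π p ((θ + xu p (θ + w / 2) - sig p : ℝ) : ℂ) := fun p θ => by
    obtain ⟨m, q1, q2, q3⟩ := sol p θ
    have : (pt w (u p) (y p) (h p) θ).1 + F1 p (pt w (u p) (y p) (h p) θ) =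
        ((θ + xu p (θ + w / 2) - sig p : ℝ) : ℂ) := by
      push_cast
      rw [q1]
      simp only [pt, rp]
      push_cast
      ring
    rw [(eqn p _ m).2.2 (Complex.ofReal_im _) (funext q3), this, q2]
    rfl
  refine ⟨a, b, fun p θ j => h p θ j.succ.succ, sig, Lb1.add (L1 fr.cV) (Lb1.mul py (L1 fr.cN)),
    Lb1.add (L2 fr.cV) (Lb1.mul py (L2 fr.cN)), fun j => Lb1.sm (sh _), cs,
    fun p => (bs p).trans e1, fun p θ => ?_, fun p θ => ⟨?_, ?_, ?_, fun j => ?_⟩,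
    fun p hp θ => ?_⟩
  · have : ((-θ + u p (-θ) : ℝ) : ℂ) = -((θ + u p θ : ℝ) : ℂ) := by
      rw [ou]
      push_cast
      ring
    simp only [ha, hb, this, nd.cv.par, nd.cn.par, ey, Gm, Complex.neg_re]
    exact ⟨trivial, by ring⟩
  · have b1 : ‖(u p θ : ℂ)‖ ≤ e := by simpa using su.bd p θ
    have b2 := fr.cV.lip p (real_mem_strip hs θ) (b1.trans_lt (by linarith))
    have b3 : ‖((r * y p θ : ℝ) : ℂ)‖ ≤ e := by
      rw [Complex.norm_real, norm_mul, Real.norm_of_nonneg r0.le]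
      exact (mul_le_of_le_one_left (norm_nonneg _) r1).trans (sy.bd p θ)
    have b4 := (norm_smul_le _ _).trans
      (mul_le_mul b3 (fr.cN.bd p _ (real_mem_strip s2 (θ + u p θ))) (norm_nonneg _) ep.le)
    have b5 := mul_le_mul_of_nonneg_left b1 (show 0 ≤ 2 * M / s by positivity)
    rw [k, add_sub_right_comm]
    rw [← Complex.ofReal_add] at b2
    linarith [norm_add_le_of_le b2 b4]
  · exact (pi_norm_le_iff_of_nonneg hη.le).2 fun j => ((sh _).bd p θ).trans e1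
  · exact key p θ ▸ (eqn p _ (sol p θ).1).1
  · rw [key, ← (eqn p _ (sol p θ).1).2.1 j]
    exact (sol p θ).2.2.2 _
  · rw [key, key, key1, key1, X, X, show -θ - w + w / 2 = -(θ + w / 2) by ring, oxu, exy,
      show -θ - w + -xu p (θ + w / 2) - sig p = -(θ + xu p (θ + w / 2) - sig p) - om p by
        rw [hp]; ring, fd.ci, fd.πi]
    simp [Gm, add_comm]

end Pool.Agent.MP_1ba41f_an.S2.LB
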