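import Pool.Agent.MP_1ba41f_an.S2.LB.Defs

/-! Invariant circles of all sizes down to zero: statements of the rows. -/

set_option autoImplicit false

noncomputable section
open Set Metric

namespace Pool.Agent.MP_1ba41f_an.S2.LB

section Defs
variable {P : Type} {n : ℕ}

/-- a complex neighbourhood of the normalised circle -/
def nb (d : ℝ) (V : P → ℂ → C2) (p : P) : Set C2 := {x | ∃ θ : ℝ, ‖x - V p θ‖ < d}

/-- normalised data (size one, centre zero) -/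
structure ND [MetricSpace P] (s0 d : ℝ) (om : P → ℝ) (V N : P → ℂ → C2) (Pm : P → C2 → C2) :
    Prop where
  s0pos : 0 < s0
  dpos : 0 < d
  omc : Continuous om
  cv : Crv s0 V
  cn : Crv s0 N
  pc : ContinuousOn (fun q : P × C2 => Pm q.1 q.2) {q | q.2 ∈ nb d V q.1}
  pd : ∀ p, DifferentiableOn ℂ (Pm p) (nb d V p)
  pr : ∀ p, ∀ x ∈ nb d V p, RealC2 x → RealC2 (Pm p x)
  inv : ∀ p (θ : ℝ), Pm p (V p (-θ - om p : ℝ)) = Gm (Pm p (V p θ))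
  trv : ∀ p (θ : ℝ), det2 (fderiv ℂ (Pm p) (V p θ) (N p θ))
    (fderiv ℂ (Pm p) (V p θ) (deriv (V p) θ)) ≠ 0
  sym : Dense {p | ∀ θ : ℝ, det2 (fderiv ℂ (Pm p) (V p θ) (N p θ) -
        Gm (fderiv ℂ (Pm p) (V p (-θ - om p : ℝ)) (N p (-θ - om p : ℝ))))
      (fderiv ℂ (Pm p) (V p θ) (deriv (V p) θ)) = 0}

/-- bounded periodic curves, holomorphic on a strip -/
structure Cv [TopologicalSpace P] (s M : ℝ) (K : P → ℂ → C2) : Prop where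
  cont : ContinuousOn (fun q : P × ℂ => K q.1 q.2) (univ ×ˢ strip s)
  diff : ∀ p, DifferentiableOn ℂ (K p) (strip s)
  per : ∀ p, ∀ θ ∈ strip s, K p (θ + 2 * Real.pi) = K p θ
  real : ∀ p (θ : ℝ), RealC2 (K p θ)
  bd : ∀ p, ∀ θ ∈ strip s, ‖K p θ‖ ≤ M

/-- image curve `c`, its tangent `T`, image `ν` of the transversal field -/
structure Fr1 [TopologicalSpace P] (d s ρ M : ℝ) (V N : P → ℂ → C2) (Pm : P → C2 → C2)
    (c T ν : P → ℂ → C2) : Prop where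
  spos : 0 < s
  ρpos : 0 < ρ
  Mpos : 0 < M
  cV : Cv s M V
  cN : Cv s M N
  cc : Cv s M c
  cT : Cv s M T
  cν : Cv s M ν
  hT : ∀ p, ∀ θ ∈ strip s, T p θ = deriv (c p) θ
  mem : ∀ p, ∀ θ ∈ strip s, ∀ Y : ℂ, ‖Y‖ ≤ ρ → V p θ + Y • N p θ ∈ nb d V p ∧
    ‖Pm p (V p θ + Y • N p θ) - c p θ - Y • ν p θ‖ ≤ M * ‖Y‖ ^ 2

/-- the frame: `π` is the symmetrised transversal field -/
structure FrD [TopologicalSpace P] (d s ρ M δ : ℝ) (om : P → ℝ) (V N : P → ℂ → C2)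
    (Pm : P → C2 → C2) (c T ν π : P → ℂ → C2) : Prop where
  fr : Fr1 d (2 * s) ρ M V N Pm c T ν
  δpos : 0 < δ
  cπ : Cv (2 * s) M π
  det : ∀ p, ∀ θ ∈ strip s, δ ≤ ‖det2 (π p θ) (T p θ)‖
  ci : ∀ p (θ : ℝ), c p (-θ - om p : ℝ) = Gm (c p θ)
  πi : ∀ p (θ : ℝ), π p (-θ - om p : ℝ) = Gm (π p θ)
  sy : ∀ p (θ : ℝ), det2 (ν p θ - π p θ) (T p θ) = 0

/-- the old slaves -/
def tl (h : Hh (n + 2)) : Hh n := fun j => h j.succ.succ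

/-- the chart -/
def Wz (V N : P → ℂ → C2) (r : ℝ) (p : P) (z : Zs (n + 2)) : Ws n :=
  (V p z.1 + ((r : ℂ) * z.2.1) • N p z.1, tl z.2.2.1, tl z.2.2.2.1, tl z.2.2.2.2)

/-- from normalised to true variables -/
def lift (H mc D1 : P → ℝ) (Dh : P → Fin n → ℝ) (c0 : ℝ) (p : P) (z : Ws n) : Ws n :=
  ((((mc p + D1 p : ℝ) : ℂ), 0) + (H p : ℂ) • z.1, fun j => Dh p j + c0 * H p * z.2.1 j,
    fun j => Dh p j + c0 * H p * z.2.2.1 j, fun j => Dh p j + c0 * H p * z.2.2.2 j)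

/-- the shifted base point on the line of symmetry -/
def base (H mc : P → ℝ) (V : P → ℂ → C2) (D1 : P → ℝ) (Dh : P → Fin n → ℝ) (p : P) : Ws n :=
  (cur H mc V p 0 + ((D1 p : ℂ), 0), fun j => Dh p j, fun j => Dh p j, fun j => Dh p j)

end Defs

/-- DC: derivatives depend continuously on parameters -/
def DcStmt : Prop :=
  ∀ (P E F : Type) [TopologicalSpace P] [NormedAddCommGroup E] [NormedSpace ℂ E]
    [NormedAddCommGroup F] [NormedSpace ℂ F] (S : Set (P × E)) (Φ : P → E → F), IsOpen S →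
    ContinuousOn (fun q : P × E => Φ q.1 q.2) S →
    (∀ p, DifferentiableOn ℂ (Φ p) {x | (p, x) ∈ S}) →
    ContinuousOn (fun q : (P × E) × E => fderiv ℂ (Φ q.1.1) q.1.2 q.2) (S ×ˢ univ)

/-- RESC: division by the size -/
def RescStmt : Prop :=
  ∀ (P E : Type) [MetricSpace P] [NormedAddCommGroup E] [NormedSpace ℂ E] (H : P → ℝ) (b : P → E)
    (S : P → Set E) (Φ : P → E → ℂ) (ρ R H1 M : ℝ), Continuous H → (∀ p, 0 ≤ H p) → Continuous b →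
    0 < ρ → 0 < R → 0 < H1 → (∀ p, ∀ z ∈ S p, ‖z - b p‖ ≤ R) →
    ContinuousOn (fun q : P × E => Φ q.1 q.2) (univ ×ˢ ball 0 ρ) →
    (∀ p, DifferentiableOn ℂ (Φ p) (ball 0 ρ)) → (∀ p, ∀ x ∈ ball (0 : E) ρ, ‖Φ p x‖ ≤ M) →
    (∀ p, H p ≤ H1 → Φ p 0 = 0) →
    ContinuousOn (fun q : P × E => Φ q.1 ((H q.1 : ℂ) • (q.2 - b q.1))) {q | q.2 ∈ S q.1} →
    (∀ p, DifferentiableOn ℂ (fun z => Φ p ((H p : ℂ) • (z - b p))) (S p)) →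
    (∀ p, ∀ z ∈ S p, ‖Φ p ((H p : ℂ) • (z - b p))‖ ≤ M) →
    ∃ Q : P → E → ℂ, ContinuousOn (fun q : P × E => Q q.1 q.2) {q | q.2 ∈ S q.1} ∧
      (∀ p, DifferentiableOn ℂ (Q p) (S p)) ∧
      (∀ p, ∀ z ∈ S p, ‖Q p z‖ ≤ (2 * R / ρ + 1 / H1) * M) ∧
      (∀ p z, Φ p ((H p : ℂ) • (z - b p)) = H p * Q p z) ∧
      (∀ p z, H p = 0 → Q p z = fderiv ℂ (Φ p) 0 (z - b p)) ∧
      ∀ p z, (∀ t : ℝ, t = H p ∨ |t| * R < ρ → (Φ p ((t : ℂ) • (z - b p))).im = 0) →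
        (Q p z).im = 0

/-- NORM: the normalised half map -/
def NormStmt : Prop :=
  ∀ (P : Type) [MetricSpace P] [CompactSpace P] (s0 d0 : ℝ) (H mc om : P → ℝ)
    (V N : P → ℂ → C2) (Pm : P → C2 → C2), LBData s0 d0 H mc om V N Pm →
    ∃ (d1 : ℝ) (Pn : P → C2 → C2) (b : P → ℝ), (∀ p, H p * d1 ≤ d0 / 4) ∧ ND s0 d1 om V N Pn ∧
      (∀ p, ∀ v ∈ nb d1 V p,
        Pm p (((mc p : ℂ), 0) + (H p : ℂ) • v) = ((b p : ℂ), 0) + (H p : ℂ) • Pn p v) ∧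
      ∀ p, H p = 0 → ∀ θ : ℝ, fderiv ℂ (Pm p) (cur H mc V p 0) (deriv (V p) (-θ - om p : ℝ)) =
        -Gm (fderiv ℂ (Pm p) (cur H mc V p 0) (deriv (V p) θ))

/-- FIXP: the symmetric fixed point of the perturbed system -/
def FixpStmt : Prop :=
  ∀ (P : Type) [MetricSpace P] [CompactSpace P] (s0 d0 : ℝ) (H mc om : P → ℝ)
    (V N : P → ℂ → C2) (Pm : P → C2 → C2), LBData s0 d0 H mc om V N Pm →
    (∀ p, H p = 0 → (fderiv ℂ (Pm p) (cur H mc V p 0) (1, 0)).2 ≠ 0) →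
    ∀ n : ℕ, ∃ C μ0 H1 : ℝ, 0 < C ∧ 0 < μ0 ∧ 0 < H1 ∧ ∀ μ : ℝ, 0 < μ → μ ≤ μ0 →
      ∀ (f2 : P → Ws n → ℂ) (G : P → Ws n → Hh n), HolW (nbh d0 H mc V) μ f2 →
        (∀ j, HolW (nbh d0 H mc V) μ fun p z => G p z j) →
        ∃ (D1 : P → ℝ) (Dh : P → Fin n → ℝ), Continuous D1 ∧ Continuous Dh ∧
          (∀ p, |D1 p| ≤ C * μ ∧ ‖Dh p‖ ≤ C * μ) ∧
          (∀ p j, G p (base H mc V D1 Dh p) j = Dh p j) ∧
          ∀ p, H p ≤ H1 → (Pm p (base H mc V D1 Dh p).1 - Pm p (cur H mc V p 0)).2 +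
            f2 p (base H mc V D1 Dh p) = 0

/-- LIFT: perturbations in normalised variables -/
def LiftStmt : Prop :=
  ∀ (P : Type) [MetricSpace P] [CompactSpace P] (s0 d0 d1 c0 H1 : ℝ) (H mc : P → ℝ)
    (V : P → ℂ → C2) (n : ℕ), 0 < s0 → 0 < d0 → 0 < d1 → 0 < c0 → c0 ≤ 1 → 0 < H1 →
    Continuous H → (∀ p, 0 ≤ H p) → Continuous mc → Crv s0 V → (∀ p, H p * d1 ≤ d0 / 4) →
    (∀ p, c0 * H p ≤ 1 / 4) → ∃ K : ℝ, 0 < K ∧ ∀ (D1 : P → ℝ) (Dh : P → Fin n → ℝ),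
      Continuous D1 → Continuous Dh → (∀ p, |D1 p| ≤ d0 / 8 ∧ ‖Dh p‖ ≤ 1 / 4) →
      (∀ p, ∀ z ∈ DomW (nb d1 V p), lift H mc D1 Dh c0 p z ∈ DomW (nbh (d0 / 2) H mc V p)) ∧
      ∀ (M : ℝ) (Ψ : P → Ws n → ℂ), HolW (nbh (d0 / 2) H mc V) M Ψ →
        (∀ p, H p ≤ H1 → Ψ p (base H mc V D1 Dh p) = 0) →
        ∃ Q : P → Ws n → ℂ, HolW (nb d1 V) (K * M) Q ∧
          ∀ p z, Ψ p (lift H mc D1 Dh c0 p z) = H p * Q p z

/-- RED: reduction to normalised data -/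
def RedStmt : Prop :=
  ∀ (P : Type) [MetricSpace P] [CompactSpace P] (s0 d0 : ℝ) (H mc om : P → ℝ)
    (V N : P → ℂ → C2) (Pm : P → C2 → C2), LBData s0 d0 H mc om V N Pm →
    ∃ (d1 : ℝ) (Pn : P → C2 → C2), ND s0 d1 om V N Pn ∧ ∀ n : ℕ, ∃ C μ0 c0 : ℝ,
      0 < C ∧ 0 < μ0 ∧ 0 < c0 ∧ (∀ p, c0 * H p ≤ 1 / 4) ∧ ∀ μ : ℝ, 0 < μ → μ ≤ μ0 →
      ∀ (f1 f2 : P → Ws n → ℂ) (G : P → Ws n → Hh n), HolW (nbh d0 H mc V) μ f1 →
        HolW (nbh d0 H mc V) μ f2 → (∀ j, HolW (nbh d0 H mc V) μ fun p z => G p z j) →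
        ∃ (D1 Dx : P → ℝ) (Dh : P → Fin n → ℝ) (g1 g2 : P → Ws n → ℂ) (Gn : P → Ws n → Hh n),
          Continuous D1 ∧ Continuous Dh ∧ (∀ p, |D1 p| ≤ C * μ ∧ ‖Dh p‖ ≤ C * μ) ∧
          HolW (nb d1 V) (C * μ) g1 ∧ HolW (nb d1 V) (C * μ) g2 ∧
          (∀ j, HolW (nb d1 V) (C * μ) fun p z => Gn p z j) ∧
          ∀ p, ∀ z ∈ DomW (nb d1 V p), lift H mc D1 Dh c0 p z ∈ DomW (nbh d0 H mc V p) ∧
            Pm p (lift H mc D1 Dh c0 p z).1 +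
                (f1 p (lift H mc D1 Dh c0 p z), f2 p (lift H mc D1 Dh c0 p z)) =
              ((Dx p : ℂ), 0) + (H p : ℂ) • (Pn p z.1 + (g1 p z, g2 p z)) ∧
            ∀ j, G p (lift H mc D1 Dh c0 p z) j = Dh p j + c0 * H p * Gn p z j

/-- FR1: the image curve -/
def Fr1Stmt : Prop :=
  ∀ (P : Type) [MetricSpace P] [CompactSpace P] (s0 d : ℝ) (om : P → ℝ) (V N : P → ℂ → C2)
    (Pm : P → C2 → C2), ND s0 d om V N Pm → ∃ s ρ M : ℝ,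
      Fr1 d s ρ M V N Pm (fun p θ => Pm p (V p θ)) (fun p => deriv fun θ => Pm p (V p θ))
        (fun p θ => fderiv ℂ (Pm p) (V p θ) (N p θ))

/-- FRAME: the frame -/
def FrameStmt : Prop :=
  ∀ (P : Type) [MetricSpace P] [CompactSpace P] (s0 d : ℝ) (om : P → ℝ) (V N : P → ℂ → C2)
    (Pm : P → C2 → C2), ND s0 d om V N Pm → ∃ (s ρ M δ : ℝ) (c T ν π : P → ℂ → C2),
      FrD d s ρ M δ om V N Pm c T ν π

/-- NEWT: the equations in Newton form -/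
def NewtStmt : Prop :=
  ∀ (P : Type) [MetricSpace P] (s0 d : ℝ) (om : P → ℝ) (V N : P → ℂ → C2) (Pm : P → C2 → C2)
    (s ρ M δ : ℝ) (c T ν π : P → ℂ → C2), ND s0 d om V N Pm → FrD d s ρ M δ om V N Pm c T ν π →
    ∀ (n : ℕ) (η : ℝ), 0 < η → ∃ r μ : ℝ, 0 < r ∧ r ≤ 1 ∧ 0 < μ ∧
      ∀ (f1 f2 : P → Ws n → ℂ) (G : P → Ws n → Hh n), HolW (nb d V) μ f1 → HolW (nb d V) μ f2 →
        (∀ j, HolW (nb d V) μ fun p z => G p z j) →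
        ∃ (F1 F2 : P → Zs (n + 2) → ℂ) (Xi : P → Zs (n + 2) → Hh (n + 2)),
          Hol s η F1 ∧ Hol s η F2 ∧ (∀ j, Hol s η fun p z => Xi p z j) ∧
          ∀ p, ∀ z ∈ Dom (n + 2) s, Wz V N r p z ∈ DomW (nb d V p) ∧
            (∀ j, Xi p z j.succ.succ = G p (Wz V N r p z) j) ∧
            (z.1.im = 0 → z.2.2.1 = Xi p z →
              Pm p (Wz V N r p z).1 + (f1 p (Wz V N r p z), f2 p (Wz V N r p z)) =
                c p (z.1 + F1 p z) + ((r : ℂ) * (z.2.1 + F2 p z)) • π p (z.1 + F1 p z))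

/-- LB1: invariant circles for normalised data -/
def Lb1Stmt : Prop :=
  ∀ (P : Type) [MetricSpace P] [CompactSpace P] (s0 d : ℝ) (om : P → ℝ) (V N : P → ℂ → C2)
    (Pm : P → C2 → C2), ND s0 d om V N Pm →
    ∀ (n : ℕ) (w g η : ℝ), DioW w g → 0 < η → ∃ μ : ℝ, 0 < μ ∧
      ∀ (f1 f2 : P → Ws n → ℂ) (G : P → Ws n → Hh n), HolW (nb d V) μ f1 → HolW (nb d V) μ f2 →
        (∀ j, HolW (nb d V) μ fun p z => G p z j) →
        ∃ (m1 m2 : P → ℝ → ℝ) (h : P → ℝ → Fin n → ℝ) (sig : P → ℝ),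
          Pa m1 ∧ Pa m2 ∧ (∀ j, Pa fun p θ => h p θ j) ∧ Continuous sig ∧ (∀ p, |sig p| ≤ η) ∧
          (∀ p θ, m1 p (-θ) = m1 p θ ∧ m2 p (-θ) = -m2 p θ) ∧
          (∀ p (θ : ℝ), ‖r2c (m1 p θ, m2 p θ) - V p θ‖ ≤ η ∧ ‖h p θ‖ ≤ η ∧
            ptW w (m1 p) (m2 p) (h p) θ ∈ DomW (nb d V p) ∧
            ∀ j, (h p θ j : ℂ) = G p (ptW w (m1 p) (m2 p) (h p) θ) j) ∧
          ∀ p, om p = w + 2 * sig p → ∀ θ : ℝ,
            Pm p (r2c (m1 p (-θ - w), m2 p (-θ - w))) +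
                (f1 p (ptW w (m1 p) (m2 p) (h p) (-θ - w)),
                  f2 p (ptW w (m1 p) (m2 p) (h p) (-θ - w))) =
              Gm (Pm p (r2c (m1 p θ, m2 p θ)) +
                (f1 p (ptW w (m1 p) (m2 p) (h p) θ), f2 p (ptW w (m1 p) (m2 p) (h p) θ)))

end Pool.Agent.MP_1ba41f_an.S2.LB
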